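import Mathlib

/-! Power series with polynomially bounded coefficients, and counting of zeros by Rolle's theorem. -/

open Set Filter Topology

namespace Pool.Agent.Q80.ZK

/-- polynomially bounded coefficients -/
def Gr (c : ℕ → ℝ) : Prop := ∃ C : ℝ, ∃ p : ℕ, ∀ l : ℕ, |c l| ≤ C * ((l : ℝ) + 1) ^ p

/-- the sum of the power series -/
noncomputable def PS (c : ℕ → ℝ) (y : ℝ) : ℝ := ∑' l : ℕ, c l * y ^ l

lemma summable_poly_geo (p : ℕ) {r : ℝ} (hr0 : 0 < r) (hr1 : r < 1) :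
    Summable (fun l : ℕ => ((l : ℝ) + 1) ^ p * r ^ l) := by
  have h1 : Summable (fun l : ℕ => (l : ℝ) ^ p * r ^ l) := by
    apply summable_pow_mul_geometric_of_norm_lt_one p
    rw [Real.norm_eq_abs, abs_of_pos hr0]; exact hr1
  have h2 : Summable (fun l : ℕ => ((l + 1 : ℕ) : ℝ) ^ p * r ^ (l + 1)) :=
    (summable_nat_add_iff (f := fun l : ℕ => (l : ℝ) ^ p * r ^ l) 1).2 h1
  have h3 := h2.mul_left r⁻¹
  refine h3.congr (fun l => ?_)
  push_cast
  field_simp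
  ring

lemma Gr.summable {c : ℕ → ℝ} (hc : Gr c) {y : ℝ} (hy : |y| < 1) :
    Summable (fun l : ℕ => c l * y ^ l) := by
  obtain ⟨C, p, h⟩ := hc
  set r : ℝ := (|y| + 1) / 2 with hr
  have hy0 := abs_nonneg y
  have hr0 : 0 < r := by rw [hr]; linarith
  have hr1 : r < 1 := by rw [hr]; linarith
  have hyr : |y| ≤ r := by rw [hr]; linarith
  refine Summable.of_norm_bounded ((summable_poly_geo p hr0 hr1).mul_left C) (fun l => ?_)
  rw [Real.norm_eq_abs, abs_mul, abs_pow]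
  have hC : 0 ≤ C * ((l : ℝ) + 1) ^ p := le_trans (abs_nonneg _) (h l)
  calc |c l| * |y| ^ l ≤ (C * ((l : ℝ) + 1) ^ p) * r ^ l :=
        mul_le_mul (h l) (pow_le_pow_left₀ hy0 hyr l) (by positivity) hC
    _ = C * (((l : ℝ) + 1) ^ p * r ^ l) := by ring

/-- coefficients of the derivative -/
def Dc (c : ℕ → ℝ) : ℕ → ℝ := fun l => ((l : ℝ) + 1) * c (l + 1)

lemma Gr.dc {c : ℕ → ℝ} (hc : Gr c) : Gr (Dc c) := by
  obtain ⟨C, p, h⟩ := hc
  refine ⟨|C| * 2 ^ p, p + 1, fun l => ?_⟩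
  unfold Dc
  have hl : (0 : ℝ) ≤ (l : ℝ) := Nat.cast_nonneg l
  rw [abs_mul, abs_of_nonneg (by linarith : (0 : ℝ) ≤ (l : ℝ) + 1)]
  have h1 := h (l + 1)
  push_cast at h1
  have h2 : ((l : ℝ) + 1 + 1) ^ p ≤ (2 * ((l : ℝ) + 1)) ^ p :=
    pow_le_pow_left₀ (by linarith) (by linarith) p
  calc ((l : ℝ) + 1) * |c (l + 1)| ≤ ((l : ℝ) + 1) * (C * ((l : ℝ) + 1 + 1) ^ p) :=
        mul_le_mul_of_nonneg_left h1 (by linarith)
    _ ≤ ((l : ℝ) + 1) * (|C| * (2 * ((l : ℝ) + 1)) ^ p) := by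
        apply mul_le_mul_of_nonneg_left _ (by linarith)
        exact mul_le_mul (le_abs_self C) h2 (by positivity) (abs_nonneg C)
    _ = |C| * 2 ^ p * ((l : ℝ) + 1) ^ (p + 1) := by rw [mul_pow]; ring

lemma Gr.add {c d : ℕ → ℝ} (hc : Gr c) (hd : Gr d) : Gr (fun l => c l + d l) := by
  obtain ⟨C, p, h⟩ := hc
  obtain ⟨E, q, h'⟩ := hd
  refine ⟨|C| + |E|, max p q, fun l => ?_⟩
  have hl : (1 : ℝ) ≤ (l : ℝ) + 1 := by have := Nat.cast_nonneg (α := ℝ) l; linarith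
  have h1 : |c l| ≤ |C| * ((l : ℝ) + 1) ^ (max p q) :=
    (h l).trans (mul_le_mul (le_abs_self C) (pow_le_pow_right₀ hl (le_max_left _ _)) (by positivity)
      (abs_nonneg C))
  have h2 : |d l| ≤ |E| * ((l : ℝ) + 1) ^ (max p q) :=
    (h' l).trans (mul_le_mul (le_abs_self E) (pow_le_pow_right₀ hl (le_max_right _ _))
      (by positivity) (abs_nonneg E))
  calc |c l + d l| ≤ |c l| + |d l| := abs_add_le _ _
    _ ≤ _ := by rw [add_mul]; exact add_le_add h1 h2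

lemma Gr.const_mul {c : ℕ → ℝ} (hc : Gr c) (a : ℝ) : Gr (fun l => a * c l) := by
  obtain ⟨C, p, h⟩ := hc
  refine ⟨|a| * C, p, fun l => ?_⟩
  rw [abs_mul, mul_assoc]
  exact mul_le_mul_of_nonneg_left (h l) (abs_nonneg a)

lemma Gr.mul_lin {c : ℕ → ℝ} (hc : Gr c) {f : ℕ → ℝ} {K : ℝ}
    (hf : ∀ l : ℕ, |f l| ≤ K * ((l : ℝ) + 1)) : Gr (fun l => f l * c l) := by
  obtain ⟨C, p, h⟩ := hc
  refine ⟨K * C, p + 1, fun l => ?_⟩
  rw [abs_mul]
  have h0 : 0 ≤ K * ((l : ℝ) + 1) := le_trans (abs_nonneg _) (hf l)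
  calc |f l| * |c l| ≤ (K * ((l : ℝ) + 1)) * (C * ((l : ℝ) + 1) ^ p) :=
        mul_le_mul (hf l) (h l) (abs_nonneg _) h0
    _ = K * C * ((l : ℝ) + 1) ^ (p + 1) := by ring

lemma Gr.zero : Gr (fun _ => (0 : ℝ)) := ⟨0, 0, fun l => by simp⟩

lemma Gr.sum {ι : Type*} (s : Finset ι) (f : ι → ℕ → ℝ) (h : ∀ i ∈ s, Gr (f i)) :
    Gr (fun l => ∑ i ∈ s, f i l) := by
  classical
  induction s using Finset.induction_on with
  | empty => simpa using Gr.zero
  | insert a s ha ih =>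
    have h1 := (h a (Finset.mem_insert_self a s)).add
      (ih (fun i hi => h i (Finset.mem_insert_of_mem hi)))
    refine (iff_of_eq (congrArg Gr ?_)).1 h1
    funext l
    rw [Finset.sum_insert ha]

lemma hasDerivAt_PS {c : ℕ → ℝ} (hc : Gr c) {y : ℝ} (hy : |y| < 1) :
    HasDerivAt (PS c) (PS (Dc c) y) y := by
  have hc' := hc
  obtain ⟨C, p, h⟩ := hc
  set r : ℝ := (|y| + 1) / 2 with hr
  have hy0 := abs_nonneg y
  have hr0 : 0 < r := by rw [hr]; linarith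
  have hr1 : r < 1 := by rw [hr]; linarith
  have hyr : |y| < r := by rw [hr]; linarith
  have hu : Summable (fun l : ℕ => r⁻¹ * (C * (((l : ℝ) + 1) ^ (p + 1) * r ^ l))) :=
    ((summable_poly_geo (p + 1) hr0 hr1).mul_left C).mul_left _
  have hd := hasDerivAt_tsum_of_isPreconnected (g := fun n (y : ℝ) => c n * y ^ n)
    (g' := fun n (y : ℝ) => c n * ((n : ℝ) * y ^ (n - 1)))
    (t := Ioo (-r) r) (y₀ := 0) (y := y) hu isOpen_Ioo isPreconnected_Ioo
    (fun n z _ => (hasDerivAt_pow n z).const_mul (c n)) ?_ ⟨by linarith, hr0⟩ ?_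
    (abs_lt.1 hyr)
  · have he : (∑' n : ℕ, c n * ((n : ℝ) * y ^ (n - 1))) = PS (Dc c) y := by
      have hs : Summable (fun n : ℕ => c n * ((n : ℝ) * y ^ (n - 1))) := by
        rw [← summable_nat_add_iff 1]
        refine (hc'.dc.summable hy).congr (fun l => ?_)
        unfold Dc
        push_cast
        ring
      rw [hs.tsum_eq_zero_add]
      simp only [Nat.cast_zero, zero_mul, mul_zero, zero_add, Nat.add_sub_cancel]
      unfold PS Dc
      refine tsum_congr (fun l => ?_)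
      push_cast; ring
    rw [he] at hd
    exact hd
  · intro n z hz
    have hz' : |z| ≤ r := (abs_lt.2 hz).le
    rw [Real.norm_eq_abs, abs_mul, abs_mul, abs_pow,
      abs_of_nonneg (Nat.cast_nonneg n : (0 : ℝ) ≤ (n : ℝ))]
    have hC : 0 ≤ C * ((n : ℝ) + 1) ^ p := le_trans (abs_nonneg _) (h n)
    have hC0 : 0 ≤ C := by
      have := h 0
      simp only [Nat.cast_zero, zero_add, one_pow, mul_one] at this
      exact le_trans (abs_nonneg _) this
    rcases Nat.eq_zero_or_pos n with h0 | h0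
    · subst h0
      simp only [Nat.cast_zero, zero_mul, mul_zero]
      positivity
    · have h1 : |z| ^ (n - 1) ≤ r ^ (n - 1) := pow_le_pow_left₀ (abs_nonneg _) hz' _
      have h2 : r ^ (n - 1) = r⁻¹ * r ^ n := by
        obtain ⟨k, rfl⟩ : ∃ k, n = k + 1 := ⟨n - 1, by omega⟩
        simp only [Nat.add_sub_cancel]
        field_simp
        ring
      calc |c n| * ((n : ℝ) * |z| ^ (n - 1))
          ≤ (C * ((n : ℝ) + 1) ^ p) * (((n : ℝ) + 1) * (r⁻¹ * r ^ n)) := by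
            apply mul_le_mul (h n) _ (by positivity) hC
            rw [← h2]
            exact mul_le_mul (by linarith) h1 (by positivity) (by positivity)
        _ = r⁻¹ * (C * (((n : ℝ) + 1) ^ (p + 1) * r ^ n)) := by ring
  · refine (summable_of_ne_finset_zero (s := {0}) (fun n hn => ?_))
    have : n ≠ 0 := by simpa using hn
    simp [this]

/-- Rolle's theorem for `n+1` zeros in `[0,1)`. -/
lemma rolleN (g g' : ℝ → ℝ) (hd : ∀ z ∈ Ico (0 : ℝ) 1, HasDerivAt g (g' z) z) (n : ℕ)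
    (s : Finset ℝ) (hs : s.card = n + 1) (hz : ∀ z ∈ s, z ∈ Ico (0 : ℝ) 1 ∧ g z = 0) :
    ∃ t : Finset ℝ, t.card = n ∧ (∀ z ∈ t, z ∈ Ioo (0 : ℝ) 1 ∧ g' z = 0) ∧ Disjoint t s := by
  classical
  set p := s.orderEmbOfFin hs with hp
  have hps : ∀ i, p i ∈ s := fun i => s.orderEmbOfFin_mem hs i
  have hmono : StrictMono p := p.strictMono
  have hR : ∀ i : Fin n, ∃ q, q ∈ Ioo (p i.castSucc) (p i.succ) ∧ g' q = 0 := by
    intro i
    have hlt : p i.castSucc < p i.succ := hmono (Fin.castSucc_lt_succ)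
    have h1 := (hz _ (hps i.castSucc))
    have h2 := (hz _ (hps i.succ))
    have hin : ∀ z ∈ Icc (p i.castSucc) (p i.succ), z ∈ Ico (0 : ℝ) 1 := fun z hz' =>
      ⟨le_trans h1.1.1 hz'.1, lt_of_le_of_lt hz'.2 h2.1.2⟩
    have hc : ContinuousOn g (Icc (p i.castSucc) (p i.succ)) := fun z hz' =>
      (hd z (hin z hz')).continuousAt.continuousWithinAt
    obtain ⟨q, hq, hq'⟩ := exists_hasDerivAt_eq_zero hlt hc (h1.2.trans h2.2.symm)
      (fun z hz' => hd z (hin z (Ioo_subset_Icc_self hz')))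
    exact ⟨q, hq, hq'⟩
  choose q hq hq' using hR
  have hqm : StrictMono q := by
    intro i j hij
    have h1 : p i.succ ≤ p j.castSucc := by
      apply hmono.monotone
      rw [Fin.le_def]
      simp only [Fin.val_succ, Fin.val_castSucc]
      exact hij
    exact lt_of_lt_of_le (hq i).2 (h1.trans (hq j).1.le)
  refine ⟨Finset.univ.image q, ?_, ?_, ?_⟩
  · rw [Finset.card_image_of_injective _ hqm.injective]; simp
  · intro z hz'
    obtain ⟨i, _, rfl⟩ := Finset.mem_image.1 hz'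
    refine ⟨⟨lt_of_le_of_lt (hz _ (hps i.castSucc)).1.1 (hq i).1,
      lt_trans (hq i).2 (hz _ (hps i.succ)).1.2⟩, hq' i⟩
  · rw [Finset.disjoint_left]
    intro z hz' hzs
    obtain ⟨i, _, rfl⟩ := Finset.mem_image.1 hz'
    have : q i ∈ Set.range p := by
      rw [hp, Finset.range_orderEmbOfFin]; exact hzs
    obtain ⟨j, hj⟩ := this
    have h1 := (hq i).1
    have h2 := (hq i).2
    rw [← hj] at h1 h2
    have h3 := hmono.lt_iff_lt.1 h1
    have h4 := hmono.lt_iff_lt.1 h2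
    rw [Fin.lt_def] at h3 h4
    simp only [Fin.val_succ, Fin.val_castSucc] at h3 h4
    omega

/-- `g` has `n` zeros in the open unit interval -/
def HasZ (n : ℕ) (g : ℝ → ℝ) : Prop :=
  ∃ s : Finset ℝ, s.card = n ∧ ∀ z ∈ s, z ∈ Ioo (0 : ℝ) 1 ∧ g z = 0

lemma HasZ.deriv {g g' : ℝ → ℝ} (hd : ∀ z ∈ Ico (0 : ℝ) 1, HasDerivAt g (g' z) z) {n : ℕ}
    (h : HasZ (n + 1) g) : HasZ n g' := by
  obtain ⟨s, hs, hz⟩ := h
  obtain ⟨t, ht, ht', _⟩ := rolleN g g' hd n s hs (fun z hz' => ⟨Ioo_subset_Ico_self (hz z hz').1,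
    (hz z hz').2⟩)
  exact ⟨t, ht, ht'⟩

/-- coefficients of `((1-y) f')'` -/
def Lc (c : ℕ → ℝ) : ℕ → ℝ := fun l =>
  ((l : ℝ) + 1) * (((l : ℝ) + 2) * c (l + 2) - ((l : ℝ) + 1) * c (l + 1))

/-- coefficients of `(1-y) f` -/
def Mc (c : ℕ → ℝ) : ℕ → ℝ
  | 0 => c 0
  | (l + 1) => c (l + 1) - c l

lemma Gr.mc {c : ℕ → ℝ} (hc : Gr c) : Gr (Mc c) := by
  obtain ⟨C, p, h⟩ := hc
  have hC0 : 0 ≤ C := by
    have := h 0
    simp only [Nat.cast_zero, zero_add, one_pow, mul_one] at this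
    exact le_trans (abs_nonneg _) this
  refine ⟨2 * C, p, fun l => ?_⟩
  cases l with
  | zero =>
    have := h 0
    simp only [Nat.cast_zero, zero_add, one_pow, mul_one] at this ⊢
    unfold Mc
    linarith
  | succ l =>
    show |c (l + 1) - c l| ≤ _
    have h1 := h (l + 1)
    have h2 := h l
    push_cast at h1 ⊢
    have hl : (0 : ℝ) ≤ (l : ℝ) := Nat.cast_nonneg l
    have h3 : ((l : ℝ) + 1) ^ p ≤ ((l : ℝ) + 1 + 1) ^ p :=
      pow_le_pow_left₀ (by linarith) (by linarith) p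
    have h4 : C * ((l : ℝ) + 1) ^ p ≤ C * ((l : ℝ) + 1 + 1) ^ p :=
      mul_le_mul_of_nonneg_left h3 hC0
    have h5 : |c (l + 1) - c l| ≤ |c (l + 1)| + |c l| := abs_sub _ _
    linarith

lemma Lc_eq (c : ℕ → ℝ) : Lc c = Dc (Mc (Dc c)) := by
  funext l
  show _ = ((l : ℝ) + 1) * (Dc c (l + 1) - Dc c l)
  unfold Lc Dc
  push_cast
  ring

lemma PS_mc {c : ℕ → ℝ} (hc : Gr c) {y : ℝ} (hy : |y| < 1) : PS (Mc c) y = (1 - y) * PS c y := by
  have h1 := hc.summable hy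
  have h2 := hc.mc.summable hy
  unfold PS
  rw [h2.tsum_eq_zero_add, sub_mul, one_mul]
  have h3 : ∀ l : ℕ, Mc c (l + 1) * y ^ (l + 1) = c (l + 1) * y ^ (l + 1) - y * (c l * y ^ l) := by
    intro l
    show (c (l + 1) - c l) * y ^ (l + 1) = _
    ring
  simp only [h3]
  rw [((summable_nat_add_iff 1).2 h1).tsum_sub (h1.mul_left y), tsum_mul_left, h1.tsum_eq_zero_add]
  show c 0 * y ^ 0 + _ = _
  ring

lemma Gr.lc {c : ℕ → ℝ} (hc : Gr c) : Gr (Lc c) := by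
  rw [Lc_eq]; exact hc.dc.mc.dc

lemma HasZ.lc {c : ℕ → ℝ} (hc : Gr c) {n : ℕ} (h : HasZ (n + 2) (PS c)) : HasZ n (PS (Lc c)) := by
  have hab : ∀ z ∈ Ico (0 : ℝ) 1, |z| < 1 := fun z hz => by
    rw [abs_of_nonneg hz.1]; exact hz.2
  have h1 : HasZ (n + 1) (PS (Dc c)) :=
    HasZ.deriv (fun z hz => hasDerivAt_PS hc (hab z hz)) h
  have h2 : HasZ (n + 1) (PS (Mc (Dc c))) := by
    obtain ⟨s, hs, hz⟩ := h1
    refine ⟨s, hs, fun z hz' => ⟨(hz z hz').1, ?_⟩⟩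
    rw [PS_mc hc.dc (hab z (Ioo_subset_Ico_self (hz z hz').1)), (hz z hz').2, mul_zero]
  rw [Lc_eq]
  exact HasZ.deriv (fun z hz => hasDerivAt_PS hc.dc.mc (hab z hz)) h2

lemma Gr.lc_iter {c : ℕ → ℝ} (hc : Gr c) (p : ℕ) : Gr (Lc^[p] c) := by
  induction p with
  | zero => exact hc
  | succ p ih => rw [Function.iterate_succ_apply']; exact ih.lc

lemma HasZ.lc_iter {c : ℕ → ℝ} (hc : Gr c) {n : ℕ} (p : ℕ) (h : HasZ (n + 2 * p) (PS c)) :
    HasZ n (PS (Lc^[p] c)) := by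
  induction p generalizing n with
  | zero => exact h
  | succ p ih =>
    rw [Function.iterate_succ_apply']
    apply HasZ.lc (hc.lc_iter p)
    apply ih
    have : n + 2 * (p + 1) = n + 2 + 2 * p := by ring
    rwa [this] at h

lemma HasZ.mono {n n' : ℕ} (hn : n' ≤ n) {g : ℝ → ℝ} (h : HasZ n g) : HasZ n' g := by
  obtain ⟨s, hs, hz⟩ := h
  obtain ⟨t, ht, ht'⟩ := Finset.exists_subset_card_eq (hs ▸ hn : n' ≤ s.card)
  exact ⟨t, ht', fun z hz' => hz z (ht hz')⟩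

/-- a power series all of whose coefficients are positive has no zero in the unit interval -/
lemma no_zero_of_pos {c : ℕ → ℝ} (hc : Gr c) (hpos : ∀ l, 0 < c l) : ¬ HasZ 1 (PS c) := by
  rintro ⟨s, hs, hz⟩
  obtain ⟨z, rfl⟩ := Finset.card_eq_one.1 hs
  obtain ⟨h1, h2⟩ := hz z (Finset.mem_singleton_self z)
  have hab : |z| < 1 := by rw [abs_of_pos h1.1]; exact h1.2
  have h3 : 0 < PS c z := by
    unfold PS
    have := (hc.summable hab).tsum_pos (fun l => mul_nonneg (hpos l).le (pow_nonneg h1.1.le l)) 0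
      (by simpa using hpos 0)
    exact this
  linarith

end Pool.Agent.Q80.ZK
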