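import Mathlib
import Pool.Agent.Q80.ZK.K1

/-! The Gamma quotients and the second order recursion. -/

open Set Filter Topology

namespace Pool.Agent.Q80.ZK

/-- the basic coefficients -/
noncomputable def bb (i j : ℤ) (l : ℕ) : ℝ :=
  Real.Gamma ((l : ℝ) - i + 1 / 2) * Real.Gamma ((l : ℝ) - j + 1 / 2) *
    (Real.Gamma ((l : ℝ) - i - j + 1))⁻¹ / (l.factorial : ℝ)

lemma inv_gamma (u : ℝ) : (Real.Gamma u)⁻¹ = u * (Real.Gamma (u + 1))⁻¹ := by
  by_cases hu : u = 0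
  · subst hu; simp
  · rw [Real.Gamma_add_one hu, mul_inv, ← mul_assoc, mul_inv_cancel₀ hu, one_mul]

lemma half_ne (l : ℕ) (i : ℤ) : (l : ℝ) - i + 1 / 2 ≠ 0 := by
  intro h
  have h1 : (2 * (l : ℤ) - 2 * i + 1 : ℤ) = 0 := by
    have : ((2 * (l : ℤ) - 2 * i + 1 : ℤ) : ℝ) = 0 := by
      push_cast; linarith
    exact_mod_cast this
  omega

lemma half_ne' (l : ℕ) (i : ℤ) : (l : ℝ) - i - 1 / 2 ≠ 0 := by
  intro h
  have h1 : (2 * (l : ℤ) - 2 * i - 1 : ℤ) = 0 := by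
    have : ((2 * (l : ℤ) - 2 * i - 1 : ℤ) : ℝ) = 0 := by
      push_cast; linarith
    exact_mod_cast this
  omega

lemma bb_symm (i j : ℤ) (l : ℕ) : bb i j l = bb j i l := by
  unfold bb
  rw [show (l : ℝ) - i - j + 1 = (l : ℝ) - j - i + 1 by ring]
  ring

lemma Lc_bb (i j : ℤ) (l : ℕ) :
    Lc (bb i j) l = ((i : ℝ) - 1 / 2) * ((j : ℝ) - 1 / 2) * bb (i - 1) (j - 1) l := by
  unfold Lc bb
  have e1 : (((l + 2 : ℕ) : ℝ)) - i + 1 / 2 = ((l : ℝ) - i + 1 / 2 + 1) + 1 := by push_cast; ring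
  have e2 : (((l + 2 : ℕ) : ℝ)) - j + 1 / 2 = ((l : ℝ) - j + 1 / 2 + 1) + 1 := by push_cast; ring
  have e3 : (((l + 1 : ℕ) : ℝ)) - i + 1 / 2 = ((l : ℝ) - i + 1 / 2 + 1) := by push_cast; ring
  have e4 : (((l + 1 : ℕ) : ℝ)) - j + 1 / 2 = ((l : ℝ) - j + 1 / 2 + 1) := by push_cast; ring
  have e5 : (((l + 2 : ℕ) : ℝ)) - i - j + 1 = ((l : ℝ) - i - j + 2) + 1 := by push_cast; ring
  have e6 : (((l + 1 : ℕ) : ℝ)) - i - j + 1 = ((l : ℝ) - i - j + 2) := by push_cast; ring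
  have e7 : (l : ℝ) - ((i - 1 : ℤ) : ℝ) + 1 / 2 = (l : ℝ) - i + 1 / 2 + 1 := by push_cast; ring
  have e8 : (l : ℝ) - ((j - 1 : ℤ) : ℝ) + 1 / 2 = (l : ℝ) - j + 1 / 2 + 1 := by push_cast; ring
  have e9 : (l : ℝ) - ((i - 1 : ℤ) : ℝ) - ((j - 1 : ℤ) : ℝ) + 1 = ((l : ℝ) - i - j + 2) + 1 := by
    push_cast; ring
  have n1 : (l : ℝ) - i + 1 / 2 + 1 ≠ 0 := by
    have := half_ne (l + 1) i
    push_cast at this
    intro h; apply this; linarith
  have n2 : (l : ℝ) - j + 1 / 2 + 1 ≠ 0 := by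
    have := half_ne (l + 1) j
    push_cast at this
    intro h; apply this; linarith
  rw [e1, e2, e3, e4, e5, e6, e7, e8, e9, Real.Gamma_add_one n1, Real.Gamma_add_one n2,
    inv_gamma ((l : ℝ) - i - j + 2)]
  have hf : (l.factorial : ℝ) ≠ 0 := by positivity
  have hl1 : (l : ℝ) + 1 ≠ 0 := by positivity
  have hl2 : (l : ℝ) + 2 ≠ 0 := by positivity
  have hf1 : ((l + 1).factorial : ℝ) = ((l : ℝ) + 1) * l.factorial := by
    rw [Nat.factorial_succ]; push_cast; ring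
  have hf2 : ((l + 2).factorial : ℝ) = ((l : ℝ) + 2) * (((l : ℝ) + 1) * l.factorial) := by
    rw [Nat.factorial_succ, Nat.factorial_succ]; push_cast; ring
  rw [hf1, hf2]
  generalize Real.Gamma ((l : ℝ) - i + 1 / 2 + 1) = P
  generalize Real.Gamma ((l : ℝ) - j + 1 / 2 + 1) = Q
  generalize (Real.Gamma ((l : ℝ) - i - j + 2 + 1))⁻¹ = R
  field_simp
  ring

lemma Lc_sum {ι : Type*} (s : Finset ι) (w : ι → ℝ) (f : ι → ℕ → ℝ) (l : ℕ) :
    Lc (fun l => ∑ a ∈ s, w a * f a l) l = ∑ a ∈ s, w a * Lc (f a) l := by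
  unfold Lc
  simp only [Finset.mul_sum]
  rw [← Finset.sum_sub_distrib, Finset.mul_sum]
  refine Finset.sum_congr rfl (fun a _ => ?_)
  ring

/-- the product of factors -/
noncomputable def pr (p : ℕ) (i : ℤ) : ℝ := ∏ t ∈ Finset.range p, ((i : ℝ) - t - 1 / 2)

lemma Lc_iter_sum {ι : Type*} (s : Finset ι) (w : ι → ℝ) (f g : ι → ℤ) (p : ℕ) (l : ℕ) :
    (Lc^[p] (fun l => ∑ a ∈ s, w a * bb (f a) (g a) l)) l =
      ∑ a ∈ s, (w a * (pr p (f a) * pr p (g a))) * bb (f a - p) (g a - p) l := by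
  induction p generalizing l with
  | zero => simp [pr]
  | succ p ih =>
    rw [Function.iterate_succ_apply']
    have h1 : (Lc^[p] (fun l => ∑ a ∈ s, w a * bb (f a) (g a) l)) =
      fun l => ∑ a ∈ s, (w a * (pr p (f a) * pr p (g a))) * bb (f a - p) (g a - p) l :=
      funext ih
    rw [h1, Lc_sum]
    refine Finset.sum_congr rfl (fun a _ => ?_)
    rw [Lc_bb]
    have e1 : f a - ((p + 1 : ℕ) : ℤ) = f a - p - 1 := by push_cast; ring
    have e2 : g a - ((p + 1 : ℕ) : ℤ) = g a - p - 1 := by push_cast; ring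
    rw [e1, e2]
    unfold pr
    rw [Finset.prod_range_succ, Finset.prod_range_succ]
    push_cast
    ring

lemma bb_pos {i j : ℤ} (hi : i ≤ 0) (hj : j ≤ 0) (l : ℕ) : 0 < bb i j l := by
  unfold bb
  have hl : (0 : ℝ) ≤ (l : ℝ) := Nat.cast_nonneg l
  have hi' : (i : ℝ) ≤ 0 := by exact_mod_cast hi
  have hj' : (j : ℝ) ≤ 0 := by exact_mod_cast hj
  have h1 := Real.Gamma_pos_of_pos (s := (l : ℝ) - i + 1 / 2) (by linarith)
  have h2 := Real.Gamma_pos_of_pos (s := (l : ℝ) - j + 1 / 2) (by linarith)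
  have h3 := Real.Gamma_pos_of_pos (s := (l : ℝ) - i - j + 1) (by linarith)
  positivity

lemma pr_sign {i m : ℕ} (h : i ≤ m) : 0 < (-1 : ℝ) ^ i * ((-1) ^ m * pr m (i : ℤ)) := by
  induction m, h using Nat.le_induction with
  | base =>
    rw [← mul_assoc, ← pow_add, ← two_mul, pow_mul]
    norm_num
    unfold pr
    refine Finset.prod_pos (fun t ht => ?_)
    have : t + 1 ≤ i := by rw [Finset.mem_range] at ht; omega
    have h2 : ((t : ℝ) + 1) ≤ (i : ℝ) := by exact_mod_cast this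
    push_cast
    linarith
  | succ m hm ih =>
    unfold pr at ih ⊢
    rw [Finset.prod_range_succ]
    have h2 : (i : ℝ) ≤ (m : ℝ) := by exact_mod_cast hm
    have h3 : 0 < (m : ℝ) + 1 / 2 - ((i : ℤ) : ℝ) := by push_cast; linarith
    have := mul_pos ih h3
    calc (0 : ℝ) < _ := this
      _ = _ := by rw [pow_succ]; ring

/-- the alternating double sums -/
noncomputable def TT (u v : ℕ → ℝ) (m : ℕ) (l : ℕ) : ℝ :=
  ∑ a ∈ Finset.range (m + 1) ×ˢ Finset.range (m + 1),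
    ((-1) ^ a.1 * u a.1 * ((-1) ^ a.2 * v a.2)) * bb (a.1 : ℤ) (a.2 : ℤ) l

lemma TT_iter_pos {u v : ℕ → ℝ} {m : ℕ} (hu : ∀ i, 0 ≤ u i) (hv : ∀ j, 0 ≤ v j)
    (hu' : ∃ i ≤ m, 0 < u i) (hv' : ∃ j ≤ m, 0 < v j) (l : ℕ) :
    0 < (Lc^[m] (TT u v m)) l := by
  unfold TT
  rw [Lc_iter_sum (Finset.range (m + 1) ×ˢ Finset.range (m + 1))
    (fun a : ℕ × ℕ => ((-1) ^ a.1 * u a.1 * ((-1) ^ a.2 * v a.2)))
    (fun a : ℕ × ℕ => (a.1 : ℤ)) (fun a : ℕ × ℕ => (a.2 : ℤ)) m l]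
  have key : ∀ i j : ℕ, i ≤ m → j ≤ m →
      ((-1 : ℝ) ^ i * u i * ((-1) ^ j * v j) * (pr m (i : ℤ) * pr m (j : ℤ))) =
      u i * v j * (((-1 : ℝ) ^ i * ((-1) ^ m * pr m (i : ℤ))) *
        ((-1 : ℝ) ^ j * ((-1) ^ m * pr m (j : ℤ)))) := by
    intro i j _ _
    have hE : ((-1 : ℝ) ^ m) * (-1) ^ m = 1 := by
      rw [← pow_add, ← two_mul, pow_mul]; norm_num
    generalize ((-1 : ℝ) ^ m) = E at hE ⊢
    linear_combination (-((-1 : ℝ) ^ i * u i * ((-1) ^ j * v j) *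
      (pr m (i : ℤ) * pr m (j : ℤ)))) * hE
  have hnn : ∀ a ∈ Finset.range (m + 1) ×ˢ Finset.range (m + 1),
      0 ≤ ((-1 : ℝ) ^ a.1 * u a.1 * ((-1) ^ a.2 * v a.2) * (pr m (a.1 : ℤ) * pr m (a.2 : ℤ))) *
        bb ((a.1 : ℤ) - m) ((a.2 : ℤ) - m) l := by
    intro a ha
    rw [Finset.mem_product, Finset.mem_range, Finset.mem_range] at ha
    rw [key a.1 a.2 (by omega) (by omega)]
    have h1 := pr_sign (i := a.1) (m := m) (by omega)
    have h2 := pr_sign (i := a.2) (m := m) (by omega)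
    have h3 := bb_pos (i := (a.1 : ℤ) - m) (j := (a.2 : ℤ) - m) (by omega) (by omega) l
    exact mul_nonneg (mul_nonneg (mul_nonneg (hu _) (hv _)) (mul_pos h1 h2).le) h3.le
  obtain ⟨i, hi, hui⟩ := hu'
  obtain ⟨j, hj, hvj⟩ := hv'
  refine Finset.sum_pos' hnn ⟨(i, j), ?_, ?_⟩
  · rw [Finset.mem_product, Finset.mem_range, Finset.mem_range]; exact ⟨by simp; omega, by simp; omega⟩
  · show 0 < ((-1 : ℝ) ^ i * u i * ((-1) ^ j * v j) * (pr m (i : ℤ) * pr m (j : ℤ))) *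
        bb ((i : ℤ) - m) ((j : ℤ) - m) l
    rw [key i j hi hj]
    have h1 := pr_sign (i := i) (m := m) hi
    have h2 := pr_sign (i := j) (m := m) hj
    have h3 := bb_pos (i := (i : ℤ) - m) (j := (j : ℤ) - m) (by omega) (by omega) l
    exact mul_pos (mul_pos (mul_pos hui hvj) (mul_pos h1 h2)) h3

lemma bb_succ (i j : ℤ) (l : ℕ) :
    bb (i + 1) j l = ((l : ℝ) - i - j) / ((l : ℝ) - i - 1 / 2) * bb i j l := by
  unfold bb
  have e1 : (l : ℝ) - ((i + 1 : ℤ) : ℝ) + 1 / 2 = (l : ℝ) - i - 1 / 2 := by push_cast; ring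
  have e2 : (l : ℝ) - ((i + 1 : ℤ) : ℝ) - j + 1 = (l : ℝ) - i - j := by push_cast; ring
  have e3 : (l : ℝ) - i + 1 / 2 = ((l : ℝ) - i - 1 / 2) + 1 := by ring
  have hn := half_ne' l i
  rw [e1, e2, e3, Real.Gamma_add_one hn, inv_gamma ((l : ℝ) - i - j)]
  have hf : (l.factorial : ℝ) ≠ 0 := by positivity
  generalize Real.Gamma ((l : ℝ) - i - 1 / 2) = P
  generalize Real.Gamma ((l : ℝ) - j + 1 / 2) = Q
  generalize (Real.Gamma ((l : ℝ) - i - j + 1))⁻¹ = R
  generalize (l : ℝ) - i - 1 / 2 = D at hn ⊢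
  field_simp

lemma bb00_succ (l : ℕ) : bb 0 0 (l + 1) = ((l : ℝ) + 1 / 2) ^ 2 / ((l : ℝ) + 1) ^ 2 * bb 0 0 l := by
  unfold bb
  have e1 : ((l + 1 : ℕ) : ℝ) - ((0 : ℤ) : ℝ) + 1 / 2 = ((l : ℝ) + 1 / 2) + 1 := by push_cast; ring
  have e2 : ((l + 1 : ℕ) : ℝ) - ((0 : ℤ) : ℝ) - ((0 : ℤ) : ℝ) + 1 = ((l : ℝ) + 1) + 1 := by
    push_cast; ring
  have e3 : (l : ℝ) - ((0 : ℤ) : ℝ) + 1 / 2 = (l : ℝ) + 1 / 2 := by push_cast; ring
  have e4 : (l : ℝ) - ((0 : ℤ) : ℝ) - ((0 : ℤ) : ℝ) + 1 = (l : ℝ) + 1 := by push_cast; ring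
  have hl : (0 : ℝ) ≤ (l : ℝ) := Nat.cast_nonneg l
  have n1 : (l : ℝ) + 1 / 2 ≠ 0 := by positivity
  have n2 : (l : ℝ) + 1 ≠ 0 := by positivity
  rw [e1, e2, e3, e4, Real.Gamma_add_one n1, Real.Gamma_add_one n2]
  have hf : (l.factorial : ℝ) ≠ 0 := by positivity
  have hf1 : ((l + 1).factorial : ℝ) = ((l : ℝ) + 1) * l.factorial := by
    rw [Nat.factorial_succ]; push_cast; ring
  rw [hf1]
  have hG : Real.Gamma ((l : ℝ) + 1) ≠ 0 := (Real.Gamma_pos_of_pos (by positivity)).ne'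
  generalize Real.Gamma ((l : ℝ) + 1 / 2) = P
  field_simp

lemma bb00_zero : bb 0 0 0 = Real.pi := by
  unfold bb
  have h : Real.Gamma (1 / 2) = Real.sqrt Real.pi := Real.Gamma_one_half_eq
  simp only [Nat.cast_zero, Int.cast_zero, sub_zero, zero_add, Nat.factorial_zero, Nat.cast_one,
    div_one, Real.Gamma_one, inv_one, mul_one]
  rw [h]
  exact Real.mul_self_sqrt Real.pi_pos.le

lemma bb00_le (l : ℕ) : bb 0 0 l ≤ Real.pi := by
  induction l with
  | zero => rw [bb00_zero]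
  | succ l ih =>
    rw [bb00_succ]
    have hp := bb_pos (i := 0) (j := 0) le_rfl le_rfl l
    have hl : (0 : ℝ) ≤ (l : ℝ) := Nat.cast_nonneg l
    have h1 : ((l : ℝ) + 1 / 2) ^ 2 / ((l : ℝ) + 1) ^ 2 ≤ 1 := by
      rw [div_le_one (by positivity)]
      exact pow_le_pow_left₀ (by linarith) (by linarith) 2
    nlinarith

lemma bb00_ge (l : ℕ) : Real.pi / 4 ≤ ((l : ℝ) + 1) * bb 0 0 (l + 1) := by
  induction l with
  | zero =>
    rw [bb00_succ, bb00_zero]
    norm_num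
    linarith
  | succ l ih =>
    rw [bb00_succ]
    have hp := bb_pos (i := 0) (j := 0) le_rfl le_rfl (l + 1)
    have hl : (0 : ℝ) ≤ (l : ℝ) := Nat.cast_nonneg l
    push_cast
    have h1 : ((l : ℝ) + 1) ≤ ((l : ℝ) + 1 + 1) *
        (((l : ℝ) + 1 + 1 / 2) ^ 2 / ((l : ℝ) + 1 + 1) ^ 2) := by
      rw [← mul_div_assoc, le_div_iff₀ (by positivity)]
      nlinarith
    calc Real.pi / 4 ≤ ((l : ℝ) + 1) * bb 0 0 (l + 1) := ih
      _ ≤ ((l : ℝ) + 1 + 1) * (((l : ℝ) + 1 + 1 / 2) ^ 2 / ((l : ℝ) + 1 + 1) ^ 2) *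
          bb 0 0 (l + 1) := mul_le_mul_of_nonneg_right h1 hp.le
      _ = _ := by ring

lemma half_abs (l : ℕ) (i : ℤ) : 1 / 2 ≤ |(l : ℝ) - i - 1 / 2| := by
  rcases le_or_gt (l : ℤ) i with h | h
  · have h1 : ((l : ℤ) : ℝ) ≤ (i : ℝ) := by exact_mod_cast h
    push_cast at h1
    rw [abs_of_neg (by linarith)]; linarith
  · have h1 : (i : ℝ) + 1 ≤ ((l : ℤ) : ℝ) := by exact_mod_cast h
    push_cast at h1
    rw [abs_of_nonneg (by linarith)]; linarith

lemma Gr_bb_step {i j : ℤ} (h : Gr (bb i j)) : Gr (bb (i + 1) j) := by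
  have h1 : Gr (fun l : ℕ => (((l : ℝ) - i - j) / ((l : ℝ) - i - 1 / 2)) * bb i j l) := by
    refine Gr.mul_lin (K := 2 * (1 + |(i : ℝ)| + |(j : ℝ)|)) h (fun l => ?_)
    rw [abs_div, div_le_iff₀ (lt_of_lt_of_le (by norm_num) (half_abs l i))]
    have hl : (0 : ℝ) ≤ (l : ℝ) := Nat.cast_nonneg l
    have h2 : |(l : ℝ) - i - j| ≤ (l : ℝ) + |(i : ℝ)| + |(j : ℝ)| := by
      calc |(l : ℝ) - i - j| ≤ |(l : ℝ) - i| + |(j : ℝ)| := abs_sub _ _
        _ ≤ |(l : ℝ)| + |(i : ℝ)| + |(j : ℝ)| := by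
          have := abs_sub (l : ℝ) (i : ℝ); linarith
        _ = _ := by rw [abs_of_nonneg hl]
    have h3 := half_abs l i
    have h4 := abs_nonneg (i : ℝ)
    have h5 := abs_nonneg (j : ℝ)
    calc |(l : ℝ) - i - j| ≤ (l : ℝ) + |(i : ℝ)| + |(j : ℝ)| := h2
      _ ≤ (2 * (1 + |(i : ℝ)| + |(j : ℝ)|) * ((l : ℝ) + 1)) * (1 / 2) := by nlinarith
      _ ≤ _ := mul_le_mul_of_nonneg_left h3 (by positivity)
  refine (iff_of_eq (congrArg Gr ?_)).1 h1
  funext l
  rw [bb_succ]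

lemma Gr_bb (i j : ℕ) : Gr (bb (i : ℤ) (j : ℤ)) := by
  have h0 : Gr (bb 0 0) := by
    refine ⟨Real.pi, 0, fun l => ?_⟩
    rw [abs_of_pos (bb_pos le_rfl le_rfl l)]
    simpa using bb00_le l
  have h1 : ∀ j : ℕ, Gr (bb 0 (j : ℤ)) := by
    intro j
    induction j with
    | zero => simpa using h0
    | succ j ih =>
      have h2 : Gr (bb (j : ℤ) 0) := (iff_of_eq (congrArg Gr (funext (fun l => bb_symm _ _ l)))).1 ih
      have h3 := Gr_bb_step h2
      refine (iff_of_eq (congrArg Gr (funext (fun l => ?_)))).1 h3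
      rw [bb_symm]; push_cast; rfl
  induction i with
  | zero => simpa using h1 j
  | succ i ih => simpa using Gr_bb_step ih

lemma Gr_TT (u v : ℕ → ℝ) (m : ℕ) : Gr (TT u v m) := by
  unfold TT
  exact Gr.sum _ _ (fun a _ => (Gr_bb a.1 a.2).const_mul _)

lemma tendsto_ratio (i j : ℤ) :
    Tendsto (fun l : ℕ => ((l : ℝ) - i - j) / ((l : ℝ) - i - 1 / 2)) atTop (𝓝 1) := by
  have h1 : Tendsto (fun l : ℕ => ((l : ℝ) - i - 1 / 2)) atTop atTop := by
    have := tendsto_natCast_atTop_atTop (R := ℝ)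
    simpa [sub_eq_add_neg, add_assoc] using tendsto_atTop_add_const_right atTop (-(i : ℝ) - 1 / 2) this
  have h2 : Tendsto (fun l : ℕ => 1 + (1 / 2 - (j : ℝ)) / ((l : ℝ) - i - 1 / 2)) atTop (𝓝 (1 + 0)) :=
    tendsto_const_nhds.add (h1.const_div_atTop _)
  rw [add_zero] at h2
  refine h2.congr (fun l => ?_)
  have := half_ne' l i
  have e : (l : ℝ) - i - j = ((l : ℝ) - i - 1 / 2) + (1 / 2 - j) := by ring
  rw [e, add_div, div_self this]

lemma tendsto_bb (i j : ℕ) :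
    Tendsto (fun l : ℕ => bb (i : ℤ) (j : ℤ) l / bb 0 0 l) atTop (𝓝 1) := by
  have h0 : ∀ l, bb 0 0 l / bb 0 0 l = 1 := fun l => div_self (bb_pos le_rfl le_rfl l).ne'
  have step : ∀ i j : ℤ, Tendsto (fun l : ℕ => bb i j l / bb 0 0 l) atTop (𝓝 1) →
      Tendsto (fun l : ℕ => bb (i + 1) j l / bb 0 0 l) atTop (𝓝 1) := by
    intro i j h
    have h1 := (tendsto_ratio i j).mul h
    rw [one_mul] at h1
    refine h1.congr (fun l => ?_)
    rw [bb_succ, mul_div_assoc]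
  have h1 : ∀ j : ℕ, Tendsto (fun l : ℕ => bb 0 (j : ℤ) l / bb 0 0 l) atTop (𝓝 1) := by
    intro j
    induction j with
    | zero => simp only [Nat.cast_zero, h0]; exact tendsto_const_nhds
    | succ j ih =>
      have h3 := step (j : ℤ) 0 (ih.congr (fun l => by rw [bb_symm]))
      refine h3.congr (fun l => ?_)
      rw [bb_symm]; push_cast; rfl
  induction i with
  | zero => simpa using h1 j
  | succ i ih =>
    have := step (i : ℤ) (j : ℤ) ih
    simpa using this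

lemma tendsto_TT (u v : ℕ → ℝ) (m : ℕ) :
    Tendsto (fun l : ℕ => TT u v m l / bb 0 0 l) atTop
      (𝓝 ((∑ i ∈ Finset.range (m + 1), (-1) ^ i * u i) *
        (∑ j ∈ Finset.range (m + 1), (-1) ^ j * v j))) := by
  rw [Finset.sum_mul_sum, ← Finset.sum_product']
  have h : Tendsto (fun l : ℕ => ∑ a ∈ Finset.range (m + 1) ×ˢ Finset.range (m + 1),
      ((-1) ^ a.1 * u a.1 * ((-1) ^ a.2 * v a.2)) * (bb (a.1 : ℤ) (a.2 : ℤ) l / bb 0 0 l)) atTop
      (𝓝 (∑ a ∈ Finset.range (m + 1) ×ˢ Finset.range (m + 1),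
        ((-1) ^ a.1 * u a.1 * ((-1) ^ a.2 * v a.2)) * 1)) :=
    tendsto_finsetSum _ (fun a _ => (tendsto_bb a.1 a.2).const_mul _)
  simp only [mul_one] at h
  refine h.congr (fun l => ?_)
  unfold TT
  rw [Finset.sum_div]
  refine Finset.sum_congr rfl (fun a _ => ?_)
  rw [mul_div_assoc]

/-- if the limit ratio is positive then the power series is positive somewhere close to `1` -/
lemma PS_TT_pos {u v : ℕ → ℝ} {m : ℕ}
    (hL : 0 < (∑ i ∈ Finset.range (m + 1), (-1) ^ i * u i) *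
        (∑ j ∈ Finset.range (m + 1), (-1) ^ j * v j)) {y0 : ℝ} (hy0 : y0 < 1) :
    ∃ y, y0 < y ∧ 0 < y ∧ y < 1 ∧ 0 < PS (TT u v m) y := by
  set L := (∑ i ∈ Finset.range (m + 1), (-1) ^ i * u i) *
        (∑ j ∈ Finset.range (m + 1), (-1) ^ j * v j) with hLdef
  have h1 := tendsto_TT u v m
  rw [← hLdef] at h1
  have h2 : ∀ᶠ l : ℕ in atTop, L / 2 < TT u v m l / bb 0 0 l := h1.eventually_const_lt (by linarith)
  obtain ⟨N, hN⟩ := eventually_atTop.1 h2
  have h3 : ∀ l, N ≤ l → L / 2 * bb 0 0 l ≤ TT u v m l := by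
    intro l hl
    have := hN l hl
    rw [lt_div_iff₀ (bb_pos le_rfl le_rfl l)] at this
    exact this.le
  have h4 : ∀ l, N ≤ l → 0 ≤ TT u v m l := fun l hl =>
    le_trans (mul_nonneg (by linarith) (bb_pos le_rfl le_rfl l).le) (h3 l hl)
  -- partial sums tend to infinity
  have h5 : Tendsto (fun M : ℕ => ∑ l ∈ Finset.range M, TT u v m l) atTop atTop := by
    have hh := Real.tendsto_sum_range_one_div_nat_succ_atTop
    have h6 : ∀ M : ℕ, (∑ l ∈ Finset.range (N + 1), (TT u v m l - L / 2 * bb 0 0 l)) +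
        (L * Real.pi / 8) * (∑ i ∈ Finset.range M, (1 : ℝ) / ((i : ℝ) + 1)) ≤
        ∑ l ∈ Finset.range (max (N + 1) (M + 1)), TT u v m l := by
      intro M
      set K := max (N + 1) (M + 1) with hK
      have h7 : (∑ l ∈ Finset.range (N + 1), (TT u v m l - L / 2 * bb 0 0 l)) ≤
          ∑ l ∈ Finset.range K, (TT u v m l - L / 2 * bb 0 0 l) := by
        apply Finset.sum_le_sum_of_subset_of_nonneg
        · intro l hl
          rw [Finset.mem_range] at hl ⊢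
          exact lt_of_lt_of_le hl (le_max_left _ _)
        · intro l _ hl
          rw [Finset.mem_range, not_lt] at hl
          have := h3 l (by omega)
          linarith
      have h8 : (L * Real.pi / 8) * (∑ i ∈ Finset.range M, (1 : ℝ) / ((i : ℝ) + 1)) ≤
          ∑ l ∈ Finset.range K, L / 2 * bb 0 0 l := by
        calc (L * Real.pi / 8) * (∑ i ∈ Finset.range M, (1 : ℝ) / ((i : ℝ) + 1))
            = ∑ i ∈ Finset.range M, (L * Real.pi / 8) * ((1 : ℝ) / ((i : ℝ) + 1)) := by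
              rw [Finset.mul_sum]
          _ ≤ ∑ i ∈ Finset.range M, L / 2 * bb 0 0 (i + 1) := by
              apply Finset.sum_le_sum
              intro i _
              have h9 := bb00_ge i
              have hi : (0 : ℝ) < (i : ℝ) + 1 := by positivity
              have h10 : Real.pi / 4 * (1 / ((i : ℝ) + 1)) ≤ bb 0 0 (i + 1) := by
                rw [mul_one_div, div_le_iff₀ hi]; linarith
              calc (L * Real.pi / 8) * ((1 : ℝ) / ((i : ℝ) + 1))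
                  = L / 2 * (Real.pi / 4 * (1 / ((i : ℝ) + 1))) := by ring
                _ ≤ _ := mul_le_mul_of_nonneg_left h10 (by linarith)
          _ ≤ ∑ l ∈ Finset.range (M + 1), L / 2 * bb 0 0 l := by
              rw [Finset.sum_range_succ']
              have := mul_pos (by linarith : 0 < L / 2) (bb_pos (i := 0) (j := 0) le_rfl le_rfl 0)
              linarith
          _ ≤ _ := by
              apply Finset.sum_le_sum_of_subset_of_nonneg
              · intro l hl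
                rw [Finset.mem_range] at hl ⊢
                exact lt_of_lt_of_le hl (le_max_right _ _)
              · intro l _ _
                exact mul_nonneg (by linarith) (bb_pos le_rfl le_rfl l).le
      have h9 : ∑ l ∈ Finset.range K, TT u v m l =
          (∑ l ∈ Finset.range K, (TT u v m l - L / 2 * bb 0 0 l)) +
          ∑ l ∈ Finset.range K, L / 2 * bb 0 0 l := by
        rw [← Finset.sum_add_distrib]
        exact Finset.sum_congr rfl (fun l _ => by ring)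
      rw [h9]
      exact add_le_add h7 h8
    have h10 : Tendsto (fun M : ℕ => (∑ l ∈ Finset.range (N + 1), (TT u v m l - L / 2 * bb 0 0 l)) +
        (L * Real.pi / 8) * (∑ i ∈ Finset.range M, (1 : ℝ) / ((i : ℝ) + 1))) atTop atTop := by
      apply tendsto_atTop_add_const_left
      exact hh.const_mul_atTop (by have := Real.pi_pos; positivity)
    have h11 := tendsto_atTop_mono h6 h10
    rw [tendsto_atTop_atTop] at h11 ⊢
    intro b
    obtain ⟨M0, hM0⟩ := h11 b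
    refine ⟨max (N + 1) (M0 + 1), fun M hM => ?_⟩
    refine le_trans (hM0 M0 le_rfl) ?_
    apply Finset.sum_le_sum_of_subset_of_nonneg
    · intro l hl
      rw [Finset.mem_range] at hl ⊢
      exact lt_of_lt_of_le hl hM
    · intro l _ hl
      rw [Finset.mem_range, not_lt] at hl
      exact h4 l (le_trans (by omega) (le_trans (le_max_left _ _) hl))
  obtain ⟨M, hMN, hM⟩ : ∃ M, N ≤ M ∧ 0 < ∑ l ∈ Finset.range M, TT u v m l := by
    have := (h5.eventually_gt_atTop 0).and (eventually_ge_atTop N)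
    obtain ⟨M, h⟩ := this.exists
    exact ⟨M, h.2, h.1⟩
  -- continuity of the finite sum at 1
  have h6 : Tendsto (fun y : ℝ => ∑ l ∈ Finset.range M, TT u v m l * y ^ l) (𝓝[<] 1)
      (𝓝 (∑ l ∈ Finset.range M, TT u v m l)) := by
    have hc : Continuous (fun y : ℝ => ∑ l ∈ Finset.range M, TT u v m l * y ^ l) := by fun_prop
    have := (hc.tendsto 1).mono_left (nhdsWithin_le_nhds (s := Iio 1))
    simpa using this
  have h7 := (h6.eventually_const_lt hM).and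
    (Ioo_mem_nhdsLT (show max y0 0 < 1 from max_lt hy0 one_pos))
  obtain ⟨y, hy1, hy2⟩ := h7.exists
  have hyp : 0 < y := lt_of_le_of_lt (le_max_right _ _) hy2.1
  refine ⟨y, lt_of_le_of_lt (le_max_left _ _) hy2.1, hyp, hy2.2, ?_⟩
  have hab : |y| < 1 := by rw [abs_of_pos hyp]; exact hy2.2
  unfold PS
  rw [← (Gr_TT u v m).summable hab |>.sum_add_tsum_nat_add M]
  have h8 : 0 ≤ ∑' l : ℕ, TT u v m (l + M) * y ^ (l + M) :=
    tsum_nonneg (fun l => mul_nonneg (h4 _ (by omega)) (pow_nonneg hyp.le _))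
  linarith

end Pool.Agent.Q80.ZK
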