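import Mathlib

/-! Polynomials with nonnegative coefficients giving the cosine and sine of multiple angles
in terms of minus the square of the sine. -/

open Polynomial

namespace Pool.Agent.Q80.ZK

/-- the pair of polynomials `(A_m, B_m)` -/
noncomputable def AB : ℕ → ℝ[X] × ℝ[X]
  | 0 => (1, 0)
  | (m + 1) =>
    ((1 + X) * ((AB m).1 + X * (AB m).2) + X * ((AB m).2 + X * (AB m).2 + (AB m).1),
      ((AB m).2 + X * (AB m).2 + (AB m).1) + ((AB m).1 + X * (AB m).2))

noncomputable def PA (m : ℕ) : ℝ[X] := (AB m).1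
noncomputable def PB (m : ℕ) : ℝ[X] := (AB m).2
noncomputable def PC (m : ℕ) : ℝ[X] := PA m + X * PB m
noncomputable def PE (m : ℕ) : ℝ[X] := PB m + X * PB m + PA m

lemma PA_zero : PA 0 = 1 := rfl
lemma PB_zero : PB 0 = 0 := rfl
lemma PA_succ (m : ℕ) : PA (m + 1) = (1 + X) * PC m + X * PE m := rfl
lemma PB_succ (m : ℕ) : PB (m + 1) = PE m + PC m := rfl

lemma trig_all (m : ℕ) (φ : ℝ) :
    (Real.cos (2 * m * φ) = (PA m).eval (-(Real.sin φ) ^ 2) ∧
      Real.sin (2 * m * φ) = Real.sin φ * Real.cos φ * (PB m).eval (-(Real.sin φ) ^ 2)) ∧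
    (Real.cos ((2 * m + 1) * φ) = Real.cos φ * (PC m).eval (-(Real.sin φ) ^ 2) ∧
      Real.sin ((2 * m + 1) * φ) = Real.sin φ * (PE m).eval (-(Real.sin φ) ^ 2)) := by
  have hc : (Real.cos φ) ^ 2 = 1 - (Real.sin φ) ^ 2 := by
    have := Real.sin_sq_add_cos_sq φ; linarith
  have second : ∀ m : ℕ, (Real.cos (2 * m * φ) = (PA m).eval (-(Real.sin φ) ^ 2) ∧
      Real.sin (2 * m * φ) = Real.sin φ * Real.cos φ * (PB m).eval (-(Real.sin φ) ^ 2)) →
      (Real.cos ((2 * m + 1) * φ) = Real.cos φ * (PC m).eval (-(Real.sin φ) ^ 2) ∧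
      Real.sin ((2 * m + 1) * φ) = Real.sin φ * (PE m).eval (-(Real.sin φ) ^ 2)) := by
    intro m h
    rw [show (2 * (m : ℝ) + 1) * φ = 2 * m * φ + φ by ring, Real.cos_add, Real.sin_add, h.1, h.2]
    unfold PC PE
    simp only [eval_add, eval_mul, eval_X]
    constructor
    · ring
    · linear_combination (Real.sin φ * (PB m).eval (-(Real.sin φ) ^ 2)) * hc
  induction m with
  | zero =>
    have h0 : (Real.cos (2 * (0 : ℕ) * φ) = (PA 0).eval (-(Real.sin φ) ^ 2) ∧
      Real.sin (2 * (0 : ℕ) * φ) = Real.sin φ * Real.cos φ * (PB 0).eval (-(Real.sin φ) ^ 2)) := by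
      rw [PA_zero, PB_zero]; simp
    exact ⟨h0, second 0 h0⟩
  | succ m ih =>
    have h1 : (Real.cos (2 * (m + 1 : ℕ) * φ) = (PA (m + 1)).eval (-(Real.sin φ) ^ 2) ∧
      Real.sin (2 * (m + 1 : ℕ) * φ) =
        Real.sin φ * Real.cos φ * (PB (m + 1)).eval (-(Real.sin φ) ^ 2)) := by
      have e : 2 * ((m + 1 : ℕ) : ℝ) * φ = (2 * m + 1) * φ + φ := by push_cast; ring
      rw [e, Real.cos_add, Real.sin_add, ih.2.1, ih.2.2, PA_succ, PB_succ]
      simp only [eval_add, eval_mul, eval_X, eval_one]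
      constructor
      · linear_combination ((PC m).eval (-(Real.sin φ) ^ 2)) * hc
      · ring
    exact ⟨h1, second (m + 1) h1⟩

lemma coeff_nonneg_all (m : ℕ) : (∀ i, 0 ≤ (PA m).coeff i) ∧ (∀ i, 0 ≤ (PB m).coeff i) := by
  have hX : ∀ (p : ℝ[X]), (∀ i, 0 ≤ p.coeff i) → ∀ i, 0 ≤ (X * p).coeff i := by
    intro p hp i
    cases i with
    | zero => simp
    | succ i => rw [coeff_X_mul]; exact hp i
  have hadd : ∀ (p q : ℝ[X]), (∀ i, 0 ≤ p.coeff i) → (∀ i, 0 ≤ q.coeff i) →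
      ∀ i, 0 ≤ (p + q).coeff i := by
    intro p q hp hq i
    rw [coeff_add]; exact add_nonneg (hp i) (hq i)
  induction m with
  | zero =>
    rw [PA_zero, PB_zero]
    refine ⟨fun i => ?_, fun i => by simp⟩
    rw [coeff_one]; split_ifs <;> norm_num
  | succ m ih =>
    have hC : ∀ i, 0 ≤ (PC m).coeff i := hadd _ _ ih.1 (hX _ ih.2)
    have hE : ∀ i, 0 ≤ (PE m).coeff i := hadd _ _ (hadd _ _ ih.2 (hX _ ih.2)) ih.1
    constructor
    · rw [PA_succ, add_mul, one_mul]
      exact hadd _ _ (hadd _ _ hC (hX _ hC)) (hX _ hE)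
    · rw [PB_succ]
      exact hadd _ _ hE hC

lemma coeff_nonneg_XB (m : ℕ) (i : ℕ) : 0 ≤ (X * PB m).coeff i := by
  cases i with
  | zero => simp
  | succ i => rw [coeff_X_mul]; exact (coeff_nonneg_all m).2 i

lemma coeff_nonneg_C (m : ℕ) (i : ℕ) : 0 ≤ (PC m).coeff i := by
  unfold PC
  rw [coeff_add]
  exact add_nonneg ((coeff_nonneg_all m).1 i) (coeff_nonneg_XB m i)

lemma coeff_nonneg_E (m : ℕ) (i : ℕ) : 0 ≤ (PE m).coeff i := by
  unfold PE
  rw [coeff_add, coeff_add]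
  exact add_nonneg (add_nonneg ((coeff_nonneg_all m).2 i) (coeff_nonneg_XB m i))
    ((coeff_nonneg_all m).1 i)

lemma degrees (m : ℕ) : (PA m).natDegree ≤ m ∧ (PB m).natDegree ≤ m ∧ (X * PB m).natDegree ≤ m := by
  induction m with
  | zero => rw [PA_zero, PB_zero]; simp
  | succ m ih =>
    obtain ⟨hA, hB, hXB⟩ := ih
    have hC : (PC m).natDegree ≤ m := natDegree_add_le_of_degree_le hA hXB
    have hE : (PE m).natDegree ≤ m :=
      natDegree_add_le_of_degree_le (natDegree_add_le_of_degree_le hB hXB) hA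
    have hX : ∀ p : ℝ[X], p.natDegree ≤ m → (X * p).natDegree ≤ m + 1 := by
      intro p hp
      refine natDegree_mul_le.trans ?_
      have := natDegree_X_le (R := ℝ)
      omega
    refine ⟨?_, ?_, ?_⟩
    · rw [PA_succ, add_mul, one_mul]
      exact natDegree_add_le_of_degree_le (natDegree_add_le_of_degree_le (by omega) (hX _ hC))
        (hX _ hE)
    · rw [PB_succ]
      exact natDegree_add_le_of_degree_le (by omega) (by omega)
    · rw [PB_succ]
      exact hX _ (natDegree_add_le_of_degree_le hE hC)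

lemma degree_C (m : ℕ) : (PC m).natDegree ≤ m :=
  natDegree_add_le_of_degree_le (degrees m).1 (degrees m).2.2

lemma degree_E (m : ℕ) : (PE m).natDegree ≤ m :=
  natDegree_add_le_of_degree_le (natDegree_add_le_of_degree_le (degrees m).2.1 (degrees m).2.2)
    (degrees m).1

lemma const_coeffs (m : ℕ) : (PA m).coeff 0 = 1 ∧ (PB m).coeff 0 = 2 * m := by
  induction m with
  | zero => rw [PA_zero, PB_zero]; simp
  | succ m ih =>
    have hC : (PC m).coeff 0 = 1 := by unfold PC; rw [coeff_add, ih.1]; simp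
    have hE : (PE m).coeff 0 = 2 * m + 1 := by
      unfold PE; rw [coeff_add, coeff_add, ih.1, ih.2]; simp
    constructor
    · rw [PA_succ, add_mul, one_mul, coeff_add, coeff_add, hC]; simp
    · rw [PB_succ, coeff_add, hC, hE]; push_cast; ring

lemma const_C (m : ℕ) : (PC m).coeff 0 = 1 := by
  unfold PC; rw [coeff_add, (const_coeffs m).1]; simp

lemma const_E (m : ℕ) : (PE m).coeff 0 = 2 * m + 1 := by
  unfold PE; rw [coeff_add, coeff_add, (const_coeffs m).1, (const_coeffs m).2]; simp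

lemma eval_neg_one (m : ℕ) :
    (PA m).eval (-1) = (-1) ^ m ∧ (PB m).eval (-1) = -((-1) ^ m * (2 * m)) := by
  induction m with
  | zero => rw [PA_zero, PB_zero]; simp
  | succ m ih =>
    rw [PA_succ, PB_succ]
    unfold PC PE
    simp only [eval_add, eval_mul, eval_X, eval_one, ih.1, ih.2]
    push_cast
    constructor <;> ring

lemma eval_sum {p : ℝ[X]} {m : ℕ} (hp : p.natDegree ≤ m) (z : ℝ) :
    p.eval (-z) = ∑ i ∈ Finset.range (m + 1), (-1) ^ i * p.coeff i * z ^ i := by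
  rw [eval_eq_sum_range' (lt_of_le_of_lt hp (Nat.lt_succ_self m))]
  refine Finset.sum_congr rfl (fun i _ => ?_)
  rw [neg_pow]; ring

end Pool.Agent.Q80.ZK
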