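import Mathlib
import Pool.Agent.Q80.ZK.K2

/-! Series expansion of the integrals. -/

open Set Filter Topology MeasureTheory intervalIntegral

namespace Pool.Agent.Q80.ZK

lemma gamma_ratio (a : ℝ) (ha : 0 < a) (n : ℕ) :
    Ring.choose (a + n - 1) n = Real.Gamma (a + n) / (Real.Gamma a * (n.factorial : ℝ)) := by
  rw [← Ring.multichoose_eq]
  have h1 := Ring.factorial_nsmul_multichoose_eq_ascPochhammer a n
  rw [Polynomial.ascPochhammer_smeval_eq_eval] at h1
  have h2 : Real.Gamma (a + n) = (ascPochhammer ℝ n).eval a * Real.Gamma a := by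
    clear h1
    induction n with
    | zero => simp
    | succ n ih =>
      rw [ascPochhammer_succ_eval]
      have hn : (0 : ℝ) ≤ (n : ℝ) := Nat.cast_nonneg n
      have h3 : a + ((n + 1 : ℕ) : ℝ) = (a + n) + 1 := by push_cast; ring
      rw [h3, Real.Gamma_add_one (by positivity), ih]
      ring
  have hG : Real.Gamma a ≠ 0 := (Real.Gamma_pos_of_pos ha).ne'
  have hf : (n.factorial : ℝ) ≠ 0 := by positivity
  rw [h2, ← h1, nsmul_eq_mul]
  field_simp

/-- binomial coefficients -/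
noncomputable def bet (a : ℝ) (n : ℕ) : ℝ := Real.Gamma (a + n) / (Real.Gamma a * (n.factorial : ℝ))

lemma bet_pos {a : ℝ} (ha : 0 < a) (n : ℕ) : 0 < bet a n := by
  unfold bet
  have h1 := Real.Gamma_pos_of_pos ha
  have h2 := Real.Gamma_pos_of_pos (s := a + n) (by positivity)
  positivity

lemma binom_hasSum (a : ℝ) (ha : 0 < a) {u : ℝ} (hu : |u| < 1) :
    HasSum (fun n : ℕ => bet a n * u ^ n) (1 / (1 - u) ^ a) := by
  have h := Real.one_div_one_sub_rpow_hasFPowerSeriesOnBall_zero a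
  have hu' : u ∈ Metric.eball (0 : ℝ) 1 := by
    rw [Metric.mem_eball, edist_zero_right, enorm_eq_nnnorm]
    have : ‖u‖₊ < 1 := by
      rw [← NNReal.coe_lt_coe]; simpa using hu
    exact_mod_cast this
  have h2 := h.hasSum hu'
  rw [zero_add] at h2
  have h3 : (fun n : ℕ => (FormalMultilinearSeries.ofScalars ℝ
      fun n : ℕ => Ring.choose (a + n - 1) n) n fun _ : Fin n => u) =
      (fun n : ℕ => bet a n * u ^ n) := by
    funext n
    rw [FormalMultilinearSeries.ofScalars_apply_eq, gamma_ratio a ha n, smul_eq_mul]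
    rfl
  rw [h3] at h2
  exact h2

/-- Wallis integrals -/
noncomputable def wal (p q : ℕ) : ℝ :=
  ∫ t in (0 : ℝ)..(Real.pi / 2), Real.sin t ^ (2 * p) * Real.cos t ^ (2 * q)

lemma wal_add (p q : ℕ) : wal p (q + 1) + wal (p + 1) q = wal p q := by
  unfold wal
  rw [← intervalIntegral.integral_add]
  · refine intervalIntegral.integral_congr (fun t _ => ?_)
    show Real.sin t ^ (2 * p) * Real.cos t ^ (2 * (q + 1)) +
      Real.sin t ^ (2 * (p + 1)) * Real.cos t ^ (2 * q) = Real.sin t ^ (2 * p) * Real.cos t ^ (2 * q)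
    have := Real.sin_sq_add_cos_sq t
    calc _ = Real.sin t ^ (2 * p) * Real.cos t ^ (2 * q) * (Real.sin t ^ 2 + Real.cos t ^ 2) := by
          ring
      _ = _ := by rw [this, mul_one]
  · exact (by fun_prop : Continuous _).intervalIntegrable _ _
  · exact (by fun_prop : Continuous _).intervalIntegrable _ _

lemma wal_parts (p q : ℕ) :
    (2 * (p : ℝ) + 1) * wal p (q + 1) = (2 * (q : ℝ) + 1) * wal (p + 1) q := by
  have hd : ∀ t : ℝ, HasDerivAt (fun t => Real.sin t ^ (2 * p + 1) * Real.cos t ^ (2 * q + 1))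
      ((2 * (p : ℝ) + 1) * (Real.sin t ^ (2 * p) * Real.cos t ^ (2 * (q + 1))) -
        (2 * (q : ℝ) + 1) * (Real.sin t ^ (2 * (p + 1)) * Real.cos t ^ (2 * q))) t := by
    intro t
    have h1 := (Real.hasDerivAt_sin t).pow (2 * p + 1)
    have h2 := (Real.hasDerivAt_cos t).pow (2 * q + 1)
    have h3 := h1.mul h2
    refine h3.congr_deriv ?_
    simp only [Pi.pow_apply]
    push_cast
    ring
  have h := intervalIntegral.integral_eq_sub_of_hasDerivAt (a := 0) (b := Real.pi / 2)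
    (fun t _ => hd t) ((by fun_prop : Continuous _).intervalIntegrable _ _)
  rw [intervalIntegral.integral_sub ((by fun_prop : Continuous _).intervalIntegrable _ _)
    ((by fun_prop : Continuous _).intervalIntegrable _ _), intervalIntegral.integral_const_mul,
    intervalIntegral.integral_const_mul] at h
  rw [Real.cos_pi_div_two, Real.sin_zero] at h
  simp only [ne_eq, Nat.add_eq_zero_iff, one_ne_zero, and_false, not_false_eq_true, zero_pow,
    mul_zero, zero_mul, sub_zero] at h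
  unfold wal
  linarith

lemma wal_formula (p q : ℕ) : wal p q =
    Real.Gamma ((p : ℝ) + 1 / 2) * Real.Gamma ((q : ℝ) + 1 / 2) / (2 * ((p + q).factorial : ℝ)) := by
  have hp : ∀ p q : ℕ, wal (p + 1) q = (2 * (p : ℝ) + 1) / (2 * ((p : ℝ) + q + 1)) * wal p q := by
    intro p q
    have h1 := wal_add p q
    have h2 := wal_parts p q
    have hne : (2 * ((p : ℝ) + q + 1)) ≠ 0 := by positivity
    rw [div_mul_eq_mul_div, eq_div_iff hne, ← h1]
    linarith
  have hq : ∀ p q : ℕ, wal p (q + 1) = (2 * (q : ℝ) + 1) / (2 * ((p : ℝ) + q + 1)) * wal p q := by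
    intro p q
    have h1 := wal_add p q
    have h2 := wal_parts p q
    have hne : (2 * ((p : ℝ) + q + 1)) ≠ 0 := by positivity
    rw [div_mul_eq_mul_div, eq_div_iff hne, ← h1]
    linarith
  induction p with
  | zero =>
    induction q with
    | zero =>
      unfold wal
      simp only [mul_zero, pow_zero, mul_one, intervalIntegral.integral_const, sub_zero,
        smul_eq_mul, Nat.cast_zero, zero_add, Nat.factorial_zero, Nat.cast_one, add_zero]
      rw [Real.Gamma_one_half_eq, Real.mul_self_sqrt Real.pi_pos.le]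
    | succ q ih =>
      rw [hq, ih]
      have e1 : ((q + 1 : ℕ) : ℝ) + 1 / 2 = ((q : ℝ) + 1 / 2) + 1 := by push_cast; ring
      have e2 : ((0 + (q + 1)).factorial : ℝ) = ((q : ℝ) + 1) * ((0 + q).factorial : ℝ) := by
        rw [zero_add, zero_add, Nat.factorial_succ]; push_cast; ring
      rw [e1, Real.Gamma_add_one (by positivity), e2]
      have hf : ((0 + q).factorial : ℝ) ≠ 0 := by positivity
      have hq1 : (q : ℝ) + 1 ≠ 0 := by positivity
      push_cast
      rw [zero_add]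
      field_simp
  | succ p ih =>
    rw [hp, ih]
    have e1 : ((p + 1 : ℕ) : ℝ) + 1 / 2 = ((p : ℝ) + 1 / 2) + 1 := by push_cast; ring
    have e2 : ((p + 1 + q).factorial : ℝ) = ((p : ℝ) + q + 1) * ((p + q).factorial : ℝ) := by
      rw [show p + 1 + q = p + q + 1 by ring, Nat.factorial_succ]; push_cast; ring
    rw [e1, Real.Gamma_add_one (by positivity), e2]
    have hf : ((p + q).factorial : ℝ) ≠ 0 := by positivity
    have hq1 : (p : ℝ) + q + 1 ≠ 0 := by positivity
    field_simp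

lemma integral_hasSum (i q : ℕ) {a : ℝ} (ha : 0 < a) {y : ℝ} (hy0 : 0 ≤ y) (hy1 : y < 1) :
    HasSum (fun n : ℕ => bet a n * y ^ n * wal (i + n) q)
      (∫ t in (0 : ℝ)..(Real.pi / 2), Real.sin t ^ (2 * i) * Real.cos t ^ (2 * q) *
        (1 / (1 - y * Real.sin t ^ 2) ^ a)) := by
  have hs := (binom_hasSum a ha (u := y) (by rw [abs_of_nonneg hy0]; exact hy1)).summable
  have h := intervalIntegral.hasSum_integral_of_dominated_convergence (μ := volume)
    (a := 0) (b := Real.pi / 2)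
    (F := fun (n : ℕ) (t : ℝ) => Real.sin t ^ (2 * i) * Real.cos t ^ (2 * q) *
      (bet a n * (y * Real.sin t ^ 2) ^ n))
    (f := fun t => Real.sin t ^ (2 * i) * Real.cos t ^ (2 * q) *
        (1 / (1 - y * Real.sin t ^ 2) ^ a))
    (fun n _ => bet a n * y ^ n) ?_ ?_ ?_ ?_ ?_
  · have he : (fun n : ℕ => ∫ t in (0 : ℝ)..(Real.pi / 2),
        Real.sin t ^ (2 * i) * Real.cos t ^ (2 * q) * (bet a n * (y * Real.sin t ^ 2) ^ n)) =
        (fun n : ℕ => bet a n * y ^ n * wal (i + n) q) := by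
      funext n
      unfold wal
      rw [← intervalIntegral.integral_const_mul]
      refine intervalIntegral.integral_congr (fun t _ => ?_)
      show Real.sin t ^ (2 * i) * Real.cos t ^ (2 * q) * (bet a n * (y * Real.sin t ^ 2) ^ n) =
        bet a n * y ^ n * (Real.sin t ^ (2 * (i + n)) * Real.cos t ^ (2 * q))
      rw [mul_pow, ← pow_mul]
      ring
    rw [← he]
    exact h
  · intro n
    exact (by fun_prop : Continuous _).aestronglyMeasurable
  · intro n
    refine Filter.Eventually.of_forall (fun t _ => ?_)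
    have h1 : Real.sin t ^ 2 ≤ 1 := Real.sin_sq_le_one t
    have h2 : Real.cos t ^ 2 ≤ 1 := Real.cos_sq_le_one t
    have h3 : 0 ≤ Real.sin t ^ 2 := sq_nonneg _
    have h4 : 0 ≤ Real.cos t ^ 2 := sq_nonneg _
    have hb := (bet_pos ha n).le
    rw [Real.norm_eq_abs, pow_mul, pow_mul, abs_of_nonneg (by positivity)]
    have h5 : (Real.sin t ^ 2) ^ i ≤ 1 := pow_le_one₀ h3 h1
    have h6 : (Real.cos t ^ 2) ^ q ≤ 1 := pow_le_one₀ h4 h2
    have h7 : (y * Real.sin t ^ 2) ^ n ≤ y ^ n :=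
      pow_le_pow_left₀ (by positivity) (by nlinarith) n
    calc (Real.sin t ^ 2) ^ i * (Real.cos t ^ 2) ^ q * (bet a n * (y * Real.sin t ^ 2) ^ n)
        ≤ 1 * 1 * (bet a n * y ^ n) := by
          apply mul_le_mul
          · exact mul_le_mul h5 h6 (by positivity) (by norm_num)
          · exact mul_le_mul_of_nonneg_left h7 hb
          · positivity
          · norm_num
      _ = _ := by ring
  · exact Filter.Eventually.of_forall (fun t _ => hs)
  · exact intervalIntegrable_const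
  · refine Filter.Eventually.of_forall (fun t _ => ?_)
    have h1 : Real.sin t ^ 2 ≤ 1 := Real.sin_sq_le_one t
    have h3 : 0 ≤ Real.sin t ^ 2 := sq_nonneg _
    have hu : |y * Real.sin t ^ 2| < 1 := by
      rw [abs_of_nonneg (by positivity)]
      nlinarith
    exact (binom_hasSum a ha hu).mul_left _

/-- the integral behind `bb i j` -/
lemma bb_hasSum (i j : ℕ) {y : ℝ} (hy0 : 0 ≤ y) (hy1 : y < 1) :
    HasSum (fun l : ℕ => bb (i : ℤ) (j : ℤ) l * y ^ l)
      (2 * y ^ (i + j) * ∫ t in (0 : ℝ)..(Real.pi / 2), Real.sin t ^ (2 * i) * Real.cos t ^ (2 * j) *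
        (1 / (1 - y * Real.sin t ^ 2) ^ ((j : ℝ) + 1 / 2))) := by
  have h := (integral_hasSum i j (a := (j : ℝ) + 1 / 2) (by positivity) hy0 hy1).mul_left
    (2 * y ^ (i + j))
  rw [← hasSum_nat_add_iff' (i + j)]
  have hz : ∑ l ∈ Finset.range (i + j), bb (i : ℤ) (j : ℤ) l * y ^ l = 0 := by
    refine Finset.sum_eq_zero (fun l hl => ?_)
    rw [Finset.mem_range] at hl
    unfold bb
    have e : (l : ℝ) - ((i : ℤ) : ℝ) - ((j : ℤ) : ℝ) + 1 = -((i + j - l - 1 : ℕ) : ℝ) := by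
      have : l + 1 ≤ i + j := hl
      rw [Nat.sub_sub, Nat.cast_sub this]
      push_cast; ring
    rw [e, Real.Gamma_neg_nat_eq_zero]
    simp
  rw [hz, sub_zero]
  refine (iff_of_eq (congrArg (fun f => HasSum f _) ?_)).1 h
  funext n
  rw [wal_formula]
  unfold bb bet
  have e1 : ((n + (i + j) : ℕ) : ℝ) - ((i : ℤ) : ℝ) + 1 / 2 = (j : ℝ) + 1 / 2 + n := by
    push_cast; ring
  have e2 : ((n + (i + j) : ℕ) : ℝ) - ((j : ℤ) : ℝ) + 1 / 2 = ((i + n : ℕ) : ℝ) + 1 / 2 := by
    push_cast; ring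
  have e3 : ((n + (i + j) : ℕ) : ℝ) - ((i : ℤ) : ℝ) - ((j : ℤ) : ℝ) + 1 = (n : ℝ) + 1 := by
    push_cast; ring
  rw [e1, e2, e3, Real.Gamma_nat_eq_factorial]
  have hG : Real.Gamma ((j : ℝ) + 1 / 2) ≠ 0 := (Real.Gamma_pos_of_pos (by positivity)).ne'
  have hf : (n.factorial : ℝ) ≠ 0 := by positivity
  have e4 : i + n + j = n + (i + j) := by ring
  rw [e4]
  have hf2 : ((n + (i + j)).factorial : ℝ) ≠ 0 := by positivity
  rw [pow_add y n (i + j)]
  field_simp

/-- the second family of coefficients -/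
noncomputable def cc (i j : ℤ) : ℕ → ℝ
  | 0 => 0
  | (l + 1) => ((j : ℝ) + 1 / 2) * bb i j l / ((l : ℝ) + 1)

lemma Dc_cc (i j : ℤ) : Dc (cc i j) = fun l => ((j : ℝ) + 1 / 2) * bb i j l := by
  funext l
  show ((l : ℝ) + 1) * (((j : ℝ) + 1 / 2) * bb i j l / ((l : ℝ) + 1)) = _
  have : (l : ℝ) + 1 ≠ 0 := by positivity
  field_simp

lemma Gr_cc (i j : ℕ) : Gr (cc i j) := by
  obtain ⟨C, p, h⟩ := (Gr_bb i j).const_mul ((((j : ℤ)) : ℝ) + 1 / 2)
  have hC0 : 0 ≤ C := by
    have := h 0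
    simp only [Nat.cast_zero, zero_add, one_pow, mul_one] at this
    exact le_trans (abs_nonneg _) this
  refine ⟨C, p, fun l => ?_⟩
  cases l with
  | zero => show |(0 : ℝ)| ≤ _; rw [abs_zero]; positivity
  | succ l =>
    show |(((j : ℤ) : ℝ) + 1 / 2) * bb i j l / ((l : ℝ) + 1)| ≤ _
    have hl : (0 : ℝ) ≤ (l : ℝ) := Nat.cast_nonneg l
    rw [abs_div, abs_of_pos (by positivity : (0 : ℝ) < (l : ℝ) + 1)]
    have h1 := h l
    push_cast at h1 ⊢
    calc _ ≤ |((j : ℝ) + 1 / 2) * bb (i : ℤ) (j : ℤ) l| := div_le_self (abs_nonneg _) (by linarith)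
      _ ≤ C * ((l : ℝ) + 1) ^ p := h1
      _ ≤ C * ((l : ℝ) + 1 + 1) ^ p := by
        apply mul_le_mul_of_nonneg_left _ hC0
        exact pow_le_pow_left₀ (by linarith) (by linarith) p

lemma cc_hasSum (i j : ℕ) {y : ℝ} (hy0 : 0 ≤ y) (hy1 : y < 1) :
    HasSum (fun l : ℕ => cc (i : ℤ) (j : ℤ) l * y ^ l)
      (2 * y ^ (i + j + 1) * ∫ t in (0 : ℝ)..(Real.pi / 2),
        Real.sin t ^ (2 * i) * Real.cos t ^ (2 * (j + 1)) *
        (1 / (1 - y * Real.sin t ^ 2) ^ ((j : ℝ) + 1 / 2))) := by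
  have h := (integral_hasSum i (j + 1) (a := (j : ℝ) + 1 / 2) (by positivity) hy0 hy1).mul_left
    (2 * y ^ (i + j + 1))
  rw [← hasSum_nat_add_iff' (i + j + 1)]
  have hz : ∑ l ∈ Finset.range (i + j + 1), cc (i : ℤ) (j : ℤ) l * y ^ l = 0 := by
    refine Finset.sum_eq_zero (fun l hl => ?_)
    rw [Finset.mem_range] at hl
    cases l with
    | zero => show (0 : ℝ) * _ = 0; rw [zero_mul]
    | succ l =>
      show ((((j : ℤ) : ℝ) + 1 / 2) * bb i j l / ((l : ℝ) + 1)) * _ = 0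
      unfold bb
      have e : (l : ℝ) - ((i : ℤ) : ℝ) - ((j : ℤ) : ℝ) + 1 = -((i + j - l - 1 : ℕ) : ℝ) := by
        have : l + 1 ≤ i + j := by omega
        rw [Nat.sub_sub, Nat.cast_sub this]
        push_cast; ring
      rw [e, Real.Gamma_neg_nat_eq_zero]
      simp
  rw [hz, sub_zero]
  refine (iff_of_eq (congrArg (fun f => HasSum f _) ?_)).1 h
  funext n
  rw [wal_formula, show n + (i + j + 1) = (n + (i + j)) + 1 by ring]
  show _ = ((((j : ℤ) : ℝ) + 1 / 2) * bb i j (n + (i + j)) / (((n + (i + j) : ℕ) : ℝ) + 1)) * _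
  unfold bb bet
  have e1 : ((n + (i + j) : ℕ) : ℝ) - ((i : ℤ) : ℝ) + 1 / 2 = (j : ℝ) + 1 / 2 + n := by
    push_cast; ring
  have e2 : ((n + (i + j) : ℕ) : ℝ) - ((j : ℤ) : ℝ) + 1 / 2 = ((i + n : ℕ) : ℝ) + 1 / 2 := by
    push_cast; ring
  have e3 : ((n + (i + j) : ℕ) : ℝ) - ((i : ℤ) : ℝ) - ((j : ℤ) : ℝ) + 1 = (n : ℝ) + 1 := by
    push_cast; ring
  have e5 : ((j + 1 : ℕ) : ℝ) + 1 / 2 = ((j : ℝ) + 1 / 2) + 1 := by push_cast; ring
  rw [e1, e2, e3, e5, Real.Gamma_nat_eq_factorial, Real.Gamma_add_one (by positivity)]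
  have hG : Real.Gamma ((j : ℝ) + 1 / 2) ≠ 0 := (Real.Gamma_pos_of_pos (by positivity)).ne'
  have hf : (n.factorial : ℝ) ≠ 0 := by positivity
  have e4 : ((i + n + (j + 1)).factorial : ℝ) =
      (((n + (i + j) : ℕ) : ℝ) + 1) * ((n + (i + j)).factorial : ℝ) := by
    rw [show i + n + (j + 1) = (n + (i + j)) + 1 by ring, Nat.factorial_succ]; push_cast; ring
  rw [e4]
  have hf2 : ((n + (i + j)).factorial : ℝ) ≠ 0 := by positivity
  have hf3 : (((n + (i + j) : ℕ) : ℝ) + 1) ≠ 0 := by positivity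
  generalize Real.Gamma ((j : ℝ) + 1 / 2 + n) = P
  generalize Real.Gamma (((i + n : ℕ) : ℝ) + 1 / 2) = Q
  generalize Real.Gamma ((j : ℝ) + 1 / 2) = R at hG ⊢
  generalize (((n + (i + j) : ℕ) : ℝ) + 1) = D at hf3 ⊢
  rw [show y ^ (n + (i + j) + 1) = y ^ n * y ^ (i + j + 1) by rw [← pow_add]; congr 1]
  push_cast
  field_simp

end Pool.Agent.Q80.ZK
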