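import Mathlib

/-! The change of variables. -/

open Set Filter Topology MeasureTheory intervalIntegral

namespace Pool.Agent.Q80.ZK

/-- The function of the problem. -/
noncomputable def FF (k : ℕ) (x : ℝ) : ℝ :=
  ∫ l in (0 : ℝ)..(Real.arccos (x - 1)), Real.sin (k * Real.arccos (x - Real.cos l))

/-- the angle `θ(φ)` with `cos θ cos φ = X` -/
noncomputable def Th (X φ : ℝ) : ℝ := Real.arccos (X / Real.cos φ)

noncomputable def Th' (X φ : ℝ) : ℝ :=
  -(1 / √(1 - (X / Real.cos φ) ^ 2)) * (X * Real.sin φ / (Real.cos φ) ^ 2)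

section
variable {X : ℝ} (hX0 : 0 < X) (hX1 : X < 1)
include hX0 hX1

lemma sqrtX : 0 < √X ∧ √X < 1 ∧ X < √X ∧ √X * √X = X := by
  have h1 : 0 < √X := Real.sqrt_pos.2 hX0
  have h2 : √X * √X = X := Real.mul_self_sqrt hX0.le
  have h3 : √X < 1 := by
    rw [show (1 : ℝ) = √1 by simp]
    exact Real.sqrt_lt_sqrt hX0.le hX1
  exact ⟨h1, h3, by nlinarith, h2⟩

lemma al_facts : 0 < Real.arccos √X ∧ Real.arccos √X < Real.pi / 2 ∧
    Real.cos (Real.arccos √X) = √X ∧ 2 * Real.arccos √X = Real.arccos (2 * X - 1) := by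
  obtain ⟨h1, h2, h3, h4⟩ := sqrtX hX0 hX1
  have hc : Real.cos (Real.arccos √X) = √X := Real.cos_arccos (by linarith) h2.le
  have hp : 0 < Real.arccos √X := Real.arccos_pos.2 h2
  have hq : Real.arccos √X < Real.pi / 2 := Real.arccos_lt_pi_div_two.2 h1
  refine ⟨hp, hq, hc, ?_⟩
  have h5 : Real.cos (2 * Real.arccos √X) = 2 * X - 1 := by
    rw [Real.cos_two_mul, hc, sq, h4]
  rw [← h5, Real.arccos_cos (by linarith) (by linarith)]

lemma cos_ge {φ : ℝ} (hφ : φ ∈ Icc (-Real.arccos √X) (Real.arccos √X)) : √X ≤ Real.cos φ := by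
  obtain ⟨h1, h2, h3, h4⟩ := al_facts hX0 hX1
  rw [← Real.cos_abs, ← h3]
  have h5 : |φ| ≤ Real.arccos √X := abs_le.2 hφ
  exact Real.cos_le_cos_of_nonneg_of_le_pi (abs_nonneg _) (by linarith) h5

lemma ratio_mem {φ : ℝ} (hφ : φ ∈ Icc (-Real.arccos √X) (Real.arccos √X)) :
    0 < Real.cos φ ∧ 0 < X / Real.cos φ ∧ X / Real.cos φ ≤ √X ∧ X / Real.cos φ < 1 := by
  obtain ⟨h1, h2, h3, h4⟩ := sqrtX hX0 hX1
  have h5 := cos_ge hX0 hX1 hφ
  have h6 : 0 < Real.cos φ := lt_of_lt_of_le h1 h5
  have h7 : X / Real.cos φ ≤ √X := by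
    rw [div_le_iff₀ h6]; nlinarith
  exact ⟨h6, div_pos hX0 h6, h7, lt_of_le_of_lt h7 h2⟩

lemma cos_Th {φ : ℝ} (hφ : φ ∈ Icc (-Real.arccos √X) (Real.arccos √X)) :
    Real.cos (Th X φ) * Real.cos φ = X := by
  obtain ⟨h1, h2, h3, h4⟩ := ratio_mem hX0 hX1 hφ
  unfold Th
  rw [Real.cos_arccos (by linarith) h4.le]
  field_simp

lemma Th_ge {φ : ℝ} (hφ : φ ∈ Icc (-Real.arccos √X) (Real.arccos √X)) :
    Real.arccos √X ≤ Th X φ ∧ Th X φ ≤ Real.pi / 2 := by
  obtain ⟨h1, h2, h3, h4⟩ := ratio_mem hX0 hX1 hφ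
  exact ⟨Real.arccos_le_arccos h3, Real.arccos_le_pi_div_two.2 h2.le⟩

lemma Th_al : Th X (Real.arccos √X) = Real.arccos √X := by
  obtain ⟨h1, h2, h3, h4⟩ := al_facts hX0 hX1
  obtain ⟨g1, g2, g3, g4⟩ := sqrtX hX0 hX1
  unfold Th
  rw [h3]
  congr 1
  rw [div_eq_iff g1.ne', g4]

omit hX0 hX1 in
lemma Th_neg (φ : ℝ) : Th X (-φ) = Th X φ := by unfold Th; rw [Real.cos_neg]

omit hX0 hX1 in
lemma Th'_neg (φ : ℝ) : Th' X (-φ) = -Th' X φ := by
  unfold Th'; rw [Real.cos_neg, Real.sin_neg]; ring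

lemma Th_deriv {φ : ℝ} (hφ : φ ∈ Icc (-Real.arccos √X) (Real.arccos √X)) :
    HasDerivAt (Th X) (Th' X φ) φ := by
  obtain ⟨h1, h2, h3, h4⟩ := ratio_mem hX0 hX1 hφ
  have hd : HasDerivAt (fun φ : ℝ => X / Real.cos φ) (X * Real.sin φ / (Real.cos φ) ^ 2) φ := by
    have := (hasDerivAt_const φ X).div (Real.hasDerivAt_cos φ) h1.ne'
    refine this.congr_deriv ?_
    ring
  have h5 := Real.hasDerivAt_arccos (x := X / Real.cos φ) (by linarith) h4.ne
  exact h5.comp φ hd

lemma Th'_cont : ContinuousOn (Th' X) (Icc (-Real.arccos √X) (Real.arccos √X)) := by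
  unfold Th'
  have hc : ContinuousOn (fun φ : ℝ => X / Real.cos φ)
      (Icc (-Real.arccos √X) (Real.arccos √X)) := by
    apply continuousOn_const.div Real.continuous_cos.continuousOn
    intro φ hφ
    exact (ratio_mem hX0 hX1 hφ).1.ne'
  apply ContinuousOn.mul
  · apply ContinuousOn.neg
    apply continuousOn_const.div
    · exact (continuousOn_const.sub (hc.pow 2)).sqrt
    · intro φ hφ
      obtain ⟨h1, h2, h3, h4⟩ := ratio_mem hX0 hX1 hφ
      apply (Real.sqrt_pos.2 _).ne'
      nlinarith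
  · apply ContinuousOn.div
    · exact continuousOn_const.mul Real.continuous_sin.continuousOn
    · exact (Real.continuous_cos.pow 2).continuousOn
    · intro φ hφ
      obtain ⟨h1, h2, h3, h4⟩ := ratio_mem hX0 hX1 hφ
      positivity

/-- the level set relation -/
lemma level {φ : ℝ} (hφ : φ ∈ Icc (-Real.arccos √X) (Real.arccos √X)) :
    Real.arccos (2 * X - Real.cos (Th X φ + φ)) = Th X φ - φ := by
  have h1 := cos_Th hX0 hX1 hφ
  have h2 := Th_ge hX0 hX1 hφ
  obtain ⟨h3, h4, h5, h6⟩ := al_facts hX0 hX1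
  have h7 : 2 * X - Real.cos (Th X φ + φ) = Real.cos (Th X φ - φ) := by
    rw [Real.cos_add, Real.cos_sub]; linarith
  rw [h7, Real.arccos_cos (by linarith [hφ.2]) (by linarith [hφ.1])]

lemma level' {φ : ℝ} (hφ : φ ∈ Icc (-Real.arccos √X) (Real.arccos √X)) :
    Real.arccos (2 * X - Real.cos (Th X φ - φ)) = Th X φ + φ := by
  have h := level hX0 hX1 (φ := -φ) ⟨by linarith [hφ.2], by linarith [hφ.1]⟩
  rw [Th_neg] at h
  rw [← sub_eq_add_neg] at h
  rw [h]; ring

/-- the first form -/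
lemma FF_form1 (k : ℕ) : FF k (2 * X) =
    ∫ φ in (-Real.arccos √X)..(Real.arccos √X),
      Real.sin (k * (Th X φ - φ)) * (Th' X φ + 1) := by
  obtain ⟨h3, h4, h5, h6⟩ := al_facts hX0 hX1
  have huI : uIcc (-Real.arccos √X) (Real.arccos √X) = Icc (-Real.arccos √X) (Real.arccos √X) :=
    uIcc_of_le (by linarith)
  have h := intervalIntegral.integral_comp_mul_deriv (a := -Real.arccos √X) (b := Real.arccos √X)
    (f := fun φ => Th X φ + φ) (f' := fun φ => Th' X φ + 1)
    (g := fun l => Real.sin (k * Real.arccos (2 * X - Real.cos l)))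
    (fun φ hφ => (Th_deriv hX0 hX1 (huI ▸ hφ)).add (hasDerivAt_id φ))
    (by rw [huI]; exact (Th'_cont hX0 hX1).add continuousOn_const)
    (by fun_prop)
  have e1 : Th X (-Real.arccos √X) + -Real.arccos √X = 0 := by
    rw [Th_neg, Th_al hX0 hX1]; ring
  have e2 : Th X (Real.arccos √X) + Real.arccos √X = Real.arccos (2 * X - 1) := by
    rw [Th_al hX0 hX1]; linarith
  simp only [] at h
  rw [e1, e2] at h
  unfold FF
  rw [← h]
  refine intervalIntegral.integral_congr (fun φ hφ => ?_)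
  show Real.sin (k * Real.arccos (2 * X - Real.cos (Th X φ + φ))) * (Th' X φ + 1) = _
  rw [level hX0 hX1 (huI ▸ hφ)]

/-- the form used for the lower bound -/
lemma FF_form2 (k : ℕ) : FF k (2 * X) =
    ∫ b in (0 : ℝ)..(Real.arccos (2 * X - 1)),
      Real.arccos (2 * X - Real.cos b) * (k * Real.cos (k * b)) := by
  obtain ⟨h3, h4, h5, h6⟩ := al_facts hX0 hX1
  have huI : uIcc (-Real.arccos √X) (Real.arccos √X) = Icc (-Real.arccos √X) (Real.arccos √X) :=
    uIcc_of_le (by linarith)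
  rw [FF_form1 hX0 hX1 k]
  have hT'c := Th'_cont hX0 hX1
  have hTc : ContinuousOn (Th X) (Icc (-Real.arccos √X) (Real.arccos √X)) := fun φ hφ =>
    (Th_deriv hX0 hX1 hφ).continuousAt.continuousWithinAt
  have hdu : ∀ φ ∈ uIcc (-Real.arccos √X) (Real.arccos √X),
      HasDerivAt (fun φ => Real.sin (k * (Th X φ - φ)))
        (Real.cos (k * (Th X φ - φ)) * (k * (Th' X φ - 1))) φ := by
    intro φ hφ
    have h1 := ((Th_deriv hX0 hX1 (huI ▸ hφ)).sub (hasDerivAt_id φ)).const_mul (k : ℝ)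
    exact (Real.hasDerivAt_sin _).comp φ h1
  have hdv : ∀ φ ∈ uIcc (-Real.arccos √X) (Real.arccos √X),
      HasDerivAt (fun φ => Th X φ + φ) (Th' X φ + 1) φ := fun φ hφ =>
    (Th_deriv hX0 hX1 (huI ▸ hφ)).add (hasDerivAt_id φ)
  have hcu : ContinuousOn (fun φ => Real.cos (k * (Th X φ - φ)) * (k * (Th' X φ - 1)))
      (uIcc (-Real.arccos √X) (Real.arccos √X)) := by
    rw [huI]
    apply ContinuousOn.mul
    · exact Real.continuous_cos.comp_continuousOn
        (continuousOn_const.mul (hTc.sub continuousOn_id))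
    · exact continuousOn_const.mul (hT'c.sub continuousOn_const)
  have hcv : ContinuousOn (fun φ => Th' X φ + 1) (uIcc (-Real.arccos √X) (Real.arccos √X)) := by
    rw [huI]; exact hT'c.add continuousOn_const
  have hparts := intervalIntegral.integral_mul_deriv_eq_deriv_mul hdu hdv hcu.intervalIntegrable
    hcv.intervalIntegrable
  rw [hparts]
  have e1 : Th X (-Real.arccos √X) + -Real.arccos √X = 0 := by
    rw [Th_neg, Th_al hX0 hX1]; ring
  have e2 : Th X (Real.arccos √X) - Real.arccos √X = 0 := by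
    rw [Th_al hX0 hX1]; ring
  have e3 : Th X (-Real.arccos √X) - -Real.arccos √X = Real.arccos (2 * X - 1) := by
    rw [Th_neg, Th_al hX0 hX1]; linarith
  rw [e1, e2]
  simp only [mul_zero, Real.sin_zero, zero_mul, sub_zero, zero_sub]
  have h := intervalIntegral.integral_comp_mul_deriv (a := -Real.arccos √X) (b := Real.arccos √X)
    (f := fun φ => Th X φ - φ) (f' := fun φ => Th' X φ - 1)
    (g := fun b => Real.arccos (2 * X - Real.cos b) * (k * Real.cos (k * b)))
    (fun φ hφ => (Th_deriv hX0 hX1 (huI ▸ hφ)).sub (hasDerivAt_id φ))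
    (by rw [huI]; exact hT'c.sub continuousOn_const)
    (by fun_prop)
  simp only [] at h
  rw [e2, e3] at h
  have h2 : (∫ φ in (-Real.arccos √X)..(Real.arccos √X),
      Real.cos (k * (Th X φ - φ)) * (k * (Th' X φ - 1)) * (Th X φ + φ)) =
      ∫ φ in (-Real.arccos √X)..(Real.arccos √X),
        ((fun b => Real.arccos (2 * X - Real.cos b) * (k * Real.cos (k * b))) ∘
          (fun φ => Th X φ - φ)) φ * (Th' X φ - 1) := by
    refine intervalIntegral.integral_congr (fun φ hφ => ?_)
    show _ = Real.arccos (2 * X - Real.cos (Th X φ - φ)) * (k * Real.cos (k * (Th X φ - φ))) *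
      (Th' X φ - 1)
    rw [level' hX0 hX1 (huI ▸ hφ)]
    ring
  rw [h2, h, intervalIntegral.integral_symm, neg_neg]

/-- `Th` is an involution -/
lemma Th_Th {φ : ℝ} (hφ : φ ∈ Icc 0 (Real.arccos √X)) : Th X (Th X φ) = φ := by
  obtain ⟨h3, h4, h5, h6⟩ := al_facts hX0 hX1
  have hφ' : φ ∈ Icc (-Real.arccos √X) (Real.arccos √X) := ⟨by linarith [hφ.1], hφ.2⟩
  obtain ⟨h1, h2, h7, h8⟩ := ratio_mem hX0 hX1 hφ'
  show Real.arccos (X / Real.cos (Real.arccos (X / Real.cos φ))) = φ
  rw [Real.cos_arccos (by linarith) h8.le]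
  have : X / (X / Real.cos φ) = Real.cos φ := by field_simp
  rw [this, Real.arccos_cos hφ.1 (by linarith [hφ.2])]

/-- the third form -/
lemma FF_form3 (k : ℕ) : FF k (2 * X) =
    2 * ∫ φ in (0 : ℝ)..(Real.arccos X), Real.cos (k * φ) * Real.sin (k * Th X φ) := by
  obtain ⟨h3, h4, h5, h6⟩ := al_facts hX0 hX1
  have huI : uIcc (-Real.arccos √X) (Real.arccos √X) = Icc (-Real.arccos √X) (Real.arccos √X) :=
    uIcc_of_le (by linarith)
  rw [FF_form1 hX0 hX1 k]
  set α := Real.arccos √X with hα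
  have hT'c := Th'_cont hX0 hX1
  have hTc : ContinuousOn (Th X) (Icc (-α) α) := fun φ hφ =>
    (Th_deriv hX0 hX1 hφ).continuousAt.continuousWithinAt
  have hcont : ContinuousOn (fun φ => Real.sin (k * (Th X φ - φ)) * (Th' X φ + 1)) (Icc (-α) α) := by
    apply ContinuousOn.mul
    · exact Real.continuous_sin.comp_continuousOn
        (continuousOn_const.mul (hTc.sub continuousOn_id))
    · exact hT'c.add continuousOn_const
  have hi1 : IntervalIntegrable (fun φ => Real.sin (k * (Th X φ - φ)) * (Th' X φ + 1)) volume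
      (-α) 0 := by
    apply (hcont.mono _).intervalIntegrable
    rw [uIcc_of_le (by linarith)]
    exact Icc_subset_Icc le_rfl h3.le
  have hi2 : IntervalIntegrable (fun φ => Real.sin (k * (Th X φ - φ)) * (Th' X φ + 1)) volume
      0 α := by
    apply (hcont.mono _).intervalIntegrable
    rw [uIcc_of_le (by linarith)]
    exact Icc_subset_Icc (by linarith) le_rfl
  rw [← intervalIntegral.integral_add_adjacent_intervals hi1 hi2]
  have hneg : (∫ φ in (-α)..0, Real.sin (k * (Th X φ - φ)) * (Th' X φ + 1)) =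
      ∫ φ in (0 : ℝ)..α, Real.sin (k * (Th X φ + φ)) * (-Th' X φ + 1) := by
    have := intervalIntegral.integral_comp_neg (a := 0) (b := α)
      (fun φ => Real.sin (k * (Th X φ - φ)) * (Th' X φ + 1))
    rw [neg_zero] at this
    rw [← this]
    refine intervalIntegral.integral_congr (fun φ _ => ?_)
    show Real.sin (k * (Th X (-φ) - -φ)) * (Th' X (-φ) + 1) = _
    rw [Th_neg, Th'_neg, sub_neg_eq_add]
  have hIcc0 : uIcc 0 α = Icc 0 α := uIcc_of_le h3.le
  have hsub0 : Icc 0 α ⊆ Icc (-α) α := Icc_subset_Icc (by linarith) le_rfl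
  have hT0 := hTc.mono hsub0
  have hT'0 := hT'c.mono hsub0
  have hci : IntervalIntegrable (fun φ => Real.sin (k * (Th X φ + φ)) * (-Th' X φ + 1)) volume
      0 α := by
    apply ContinuousOn.intervalIntegrable
    rw [hIcc0]
    apply ContinuousOn.mul
    · exact Real.continuous_sin.comp_continuousOn
        (continuousOn_const.mul (hT0.add continuousOn_id))
    · exact hT'0.neg.add continuousOn_const
  rw [hneg, ← intervalIntegral.integral_add hci hi2]
  have hA : IntervalIntegrable (fun φ => Real.cos (k * φ) * Real.sin (k * Th X φ)) volume 0 α := by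
    apply ContinuousOn.intervalIntegrable
    rw [hIcc0]
    apply ContinuousOn.mul
    · exact (by fun_prop : Continuous _).continuousOn
    · exact Real.continuous_sin.comp_continuousOn (continuousOn_const.mul hT0)
  have hB : IntervalIntegrable (fun φ => Real.cos (k * Th X φ) * Real.sin (k * φ) * Th' X φ)
      volume 0 α := by
    apply ContinuousOn.intervalIntegrable
    rw [hIcc0]
    apply ContinuousOn.mul
    · apply ContinuousOn.mul
      · exact Real.continuous_cos.comp_continuousOn (continuousOn_const.mul hT0)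
      · exact (by fun_prop : Continuous _).continuousOn
    · exact hT'0
  have hsplit : (∫ φ in (0 : ℝ)..α, (Real.sin (k * (Th X φ + φ)) * (-Th' X φ + 1) +
      Real.sin (k * (Th X φ - φ)) * (Th' X φ + 1))) =
      2 * (∫ φ in (0 : ℝ)..α, Real.cos (k * φ) * Real.sin (k * Th X φ)) -
      2 * (∫ φ in (0 : ℝ)..α, Real.cos (k * Th X φ) * Real.sin (k * φ) * Th' X φ) := by
    rw [← intervalIntegral.integral_const_mul, ← intervalIntegral.integral_const_mul,
      ← intervalIntegral.integral_sub (hA.const_mul 2) (hB.const_mul 2)]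
    refine intervalIntegral.integral_congr (fun φ _ => ?_)
    show Real.sin (k * (Th X φ + φ)) * (-Th' X φ + 1) +
      Real.sin (k * (Th X φ - φ)) * (Th' X φ + 1) =
      2 * (Real.cos (k * φ) * Real.sin (k * Th X φ)) -
      2 * (Real.cos (k * Th X φ) * Real.sin (k * φ) * Th' X φ)
    rw [mul_add (k : ℝ) (Th X φ) φ, mul_sub (k : ℝ) (Th X φ) φ, Real.sin_add, Real.sin_sub]
    ring
  rw [hsplit]
  -- the substitution by the involution
  have hfc : ContinuousOn (fun φ => Real.cos (k * φ) * Real.sin (k * Th X φ))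
      (Icc 0 (Real.arccos X)) := by
    apply ContinuousOn.mul
    · exact (by fun_prop : Continuous _).continuousOn
    · apply Real.continuous_sin.comp_continuousOn
      apply continuousOn_const.mul
      unfold Th
      apply Real.continuous_arccos.comp_continuousOn
      apply continuousOn_const.div Real.continuous_cos.continuousOn
      intro φ hφ
      have h1 : Real.cos (Real.arccos X) ≤ Real.cos φ :=
        Real.cos_le_cos_of_nonneg_of_le_pi hφ.1 (Real.arccos_le_pi X) hφ.2
      rw [Real.cos_arccos (by linarith) hX1.le] at h1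
      exact (lt_of_lt_of_le hX0 h1).ne'
  have hal : α ≤ Real.arccos X := by
    rw [hα]; exact Real.arccos_le_arccos (sqrtX hX0 hX1).2.2.1.le
  have himg : Th X '' uIcc 0 α ⊆ Icc 0 (Real.arccos X) := by
    rw [hIcc0]
    rintro _ ⟨φ, hφ, rfl⟩
    refine ⟨Real.arccos_nonneg _, ?_⟩
    apply Real.arccos_le_arccos
    obtain ⟨g1, g2, g3, g4⟩ := ratio_mem hX0 hX1 (hsub0 hφ)
    rw [le_div_iff₀ g1]
    have := Real.cos_le_one φ
    nlinarith
  have h := intervalIntegral.integral_comp_mul_deriv' (a := 0) (b := α)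
    (f := Th X) (f' := Th' X)
    (g := fun φ => Real.cos (k * φ) * Real.sin (k * Th X φ))
    (fun φ hφ => Th_deriv hX0 hX1 (hsub0 (hIcc0 ▸ hφ)))
    (by rw [hIcc0]; exact hT'0)
    (hfc.mono himg)
  have hTh0 : Th X 0 = Real.arccos X := by unfold Th; rw [Real.cos_zero, div_one]
  rw [hTh0, Th_al hX0 hX1] at h
  have h2 : (∫ φ in (0 : ℝ)..α, Real.cos (k * Th X φ) * Real.sin (k * φ) * Th' X φ) =
      ∫ φ in (0 : ℝ)..α, ((fun φ => Real.cos (k * φ) * Real.sin (k * Th X φ)) ∘ Th X) φ *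
        Th' X φ := by
    refine intervalIntegral.integral_congr (fun φ hφ => ?_)
    show _ = Real.cos (k * Th X φ) * Real.sin (k * Th X (Th X φ)) * Th' X φ
    rw [Th_Th hX0 hX1 (hIcc0 ▸ hφ)]
  have hsym := intervalIntegral.integral_symm (μ := volume) (a := α) (b := Real.arccos X)
    (f := fun φ => Real.cos (k * φ) * Real.sin (k * Th X φ))
  rw [h2, h, hsym]
  have hi3 : IntervalIntegrable (fun φ => Real.cos (k * φ) * Real.sin (k * Th X φ)) volume
      α (Real.arccos X) := by
    apply (hfc.mono _).intervalIntegrable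
    rw [uIcc_of_le hal]
    exact Icc_subset_Icc h3.le le_rfl
  rw [← intervalIntegral.integral_add_adjacent_intervals hA hi3]
  ring

/-- the fourth form -/
lemma FF_form4 (k : ℕ) : FF k (2 * X) =
    2 * ∫ t in (0 : ℝ)..(Real.pi / 2),
      Real.cos (k * Real.arcsin (√(1 - X ^ 2) * Real.sin t)) *
      Real.sin (k * Real.arccos (X / √(1 - (1 - X ^ 2) * Real.sin t ^ 2))) *
      (√(1 - X ^ 2) * Real.cos t / √(1 - (1 - X ^ 2) * Real.sin t ^ 2)) := by
  rw [FF_form3 hX0 hX1 k]
  congr 1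
  set s := √(1 - X ^ 2) with hs
  have hy : 0 < 1 - X ^ 2 := by nlinarith
  have hs2 : s ^ 2 = 1 - X ^ 2 := Real.sq_sqrt hy.le
  have hs0 : 0 < s := Real.sqrt_pos.2 hy
  have hs1 : s < 1 := by nlinarith
  have hb : ∀ t : ℝ, |s * Real.sin t| < 1 := by
    intro t
    rw [abs_mul, abs_of_pos hs0]
    have := Real.abs_sin_le_one t
    nlinarith [abs_nonneg (Real.sin t)]
  have hcos : ∀ t : ℝ, Real.cos (Real.arcsin (s * Real.sin t)) =
      √(1 - (1 - X ^ 2) * Real.sin t ^ 2) := by
    intro t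
    rw [Real.cos_arcsin, mul_pow, hs2]
  have hd : ∀ t : ℝ, HasDerivAt (fun t => Real.arcsin (s * Real.sin t))
      (s * Real.cos t / √(1 - (1 - X ^ 2) * Real.sin t ^ 2)) t := by
    intro t
    have h1 := (Real.hasDerivAt_sin t).const_mul s
    have h2 := abs_lt.1 (hb t)
    have h3 := Real.hasDerivAt_arcsin (x := s * Real.sin t) (by linarith [h2.1]) (by linarith [h2.2])
    have h4 := h3.comp t h1
    refine h4.congr_deriv ?_
    rw [mul_pow, hs2]
    ring
  have hpos : ∀ t : ℝ, 0 < 1 - (1 - X ^ 2) * Real.sin t ^ 2 := by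
    intro t
    have := Real.sin_sq_le_one t
    nlinarith [sq_nonneg (Real.sin t), sq_nonneg X]
  have hdc : Continuous (fun t => s * Real.cos t / √(1 - (1 - X ^ 2) * Real.sin t ^ 2)) := by
    apply Continuous.div (by fun_prop) (by fun_prop)
    intro t
    exact (Real.sqrt_pos.2 (hpos t)).ne'
  have himg : (fun t => Real.arcsin (s * Real.sin t)) '' uIcc 0 (Real.pi / 2) ⊆
      {φ | 0 < Real.cos φ} := by
    rintro _ ⟨t, _, rfl⟩
    show 0 < Real.cos (Real.arcsin (s * Real.sin t))
    rw [hcos]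
    exact Real.sqrt_pos.2 (hpos t)
  have hfc : ContinuousOn (fun φ => Real.cos (k * φ) * Real.sin (k * Th X φ))
      {φ | 0 < Real.cos φ} := by
    apply ContinuousOn.mul
    · exact (by fun_prop : Continuous _).continuousOn
    · apply Real.continuous_sin.comp_continuousOn
      apply continuousOn_const.mul
      unfold Th
      apply Real.continuous_arccos.comp_continuousOn
      apply continuousOn_const.div Real.continuous_cos.continuousOn
      intro φ hφ
      exact ne_of_gt hφ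
  have h := intervalIntegral.integral_comp_mul_deriv' (a := 0) (b := Real.pi / 2)
    (f := fun t => Real.arcsin (s * Real.sin t))
    (f' := fun t => s * Real.cos t / √(1 - (1 - X ^ 2) * Real.sin t ^ 2))
    (g := fun φ => Real.cos (k * φ) * Real.sin (k * Th X φ))
    (fun t _ => hd t) hdc.continuousOn (hfc.mono himg)
  have e1 : Real.arcsin (s * Real.sin 0) = 0 := by simp
  have e2 : Real.arcsin (s * Real.sin (Real.pi / 2)) = Real.arccos X := by
    rw [Real.sin_pi_div_two, mul_one, hs, Real.arccos_eq_arcsin hX0.le]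
  simp only [] at h
  rw [e1, e2] at h
  rw [← h]
  refine intervalIntegral.integral_congr (fun t _ => ?_)
  show Real.cos (k * Real.arcsin (s * Real.sin t)) * Real.sin (k * Th X (Real.arcsin (s * Real.sin t)))
    * _ = _
  unfold Th
  rw [hcos]

end

end Pool.Agent.Q80.ZK
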