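import Mathlib
import Pool.Agent.Q80.ZK.K5

/-! Signs at the points `1 + cos (j π / k)`, and continuity. -/

open Set Filter Topology MeasureTheory intervalIntegral

namespace Pool.Agent.Q80.ZK

lemma integral_cos_zero {k : ℕ} (hk : 0 < k) :
    ∫ t in (0 : ℝ)..(Real.pi / k), Real.cos (k * t) = 0 := by
  have hk' : (0 : ℝ) < k := by exact_mod_cast hk
  have hd : ∀ t : ℝ, HasDerivAt (fun t => Real.sin (k * t) / k) (Real.cos (k * t)) t := by
    intro t
    have h1 := ((Real.hasDerivAt_sin (k * t)).comp t ((hasDerivAt_id t).const_mul (k : ℝ))).div_const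
      (k : ℝ)
    refine h1.congr_deriv ?_
    simp only [id_eq, mul_one]
    field_simp
  rw [intervalIntegral.integral_eq_sub_of_hasDerivAt (fun t _ => hd t)
    ((by fun_prop : Continuous _).intervalIntegrable _ _)]
  rw [mul_div_cancel₀ _ hk'.ne', Real.sin_pi]
  simp

lemma pair_pos {k : ℕ} (hk : 0 < k) {u : ℝ → ℝ} (hc : ContinuousOn u (Icc 0 (Real.pi / k)))
    (hs : StrictAntiOn u (Icc 0 (Real.pi / k))) :
    0 < ∫ t in (0 : ℝ)..(Real.pi / k), u t * Real.cos (k * t) := by
  have hk' : (0 : ℝ) < k := by exact_mod_cast hk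
  have hpi := Real.pi_pos
  set d := Real.pi / k with hd
  have hd0 : 0 < d := by positivity
  have hkd : (k : ℝ) * d = Real.pi := by rw [hd]; field_simp
  have hm : d / 2 ∈ Icc 0 d := ⟨by linarith, by linarith⟩
  set M := u (d / 2) with hM
  have hcc : ContinuousOn (fun t => (u t - M) * Real.cos (k * t)) (Icc 0 d) :=
    (hc.sub continuousOn_const).mul (by fun_prop : Continuous _).continuousOn
  have hi : IntervalIntegrable (fun t => u t * Real.cos (k * t)) volume 0 d := by
    apply ContinuousOn.intervalIntegrable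
    rw [uIcc_of_le hd0.le]
    exact hc.mul (by fun_prop : Continuous _).continuousOn
  have hi2 : IntervalIntegrable (fun t => M * Real.cos (k * t)) volume 0 d :=
    (by fun_prop : Continuous _).intervalIntegrable _ _
  have e1 : (∫ t in (0 : ℝ)..d, u t * Real.cos (k * t)) =
      ∫ t in (0 : ℝ)..d, (u t - M) * Real.cos (k * t) := by
    have h1 : (∫ t in (0 : ℝ)..d, (u t - M) * Real.cos (k * t)) =
        (∫ t in (0 : ℝ)..d, u t * Real.cos (k * t)) - ∫ t in (0 : ℝ)..d, M * Real.cos (k * t) := by
      rw [← intervalIntegral.integral_sub hi hi2]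
      refine intervalIntegral.integral_congr (fun t _ => ?_)
      show (u t - M) * Real.cos (k * t) = u t * Real.cos (k * t) - M * Real.cos (k * t)
      ring
    rw [h1, intervalIntegral.integral_const_mul, integral_cos_zero hk, mul_zero, sub_zero]
  rw [e1]
  have ha : IntervalIntegrable (fun t => (u t - M) * Real.cos (k * t)) volume 0 (d / 2) := by
    apply (hcc.mono _).intervalIntegrable
    rw [uIcc_of_le (by linarith)]
    exact Icc_subset_Icc le_rfl (by linarith)
  have hb : IntervalIntegrable (fun t => (u t - M) * Real.cos (k * t)) volume (d / 2) d := by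
    apply (hcc.mono _).intervalIntegrable
    rw [uIcc_of_le (by linarith)]
    exact Icc_subset_Icc (by linarith) le_rfl
  rw [← intervalIntegral.integral_add_adjacent_intervals ha hb]
  apply add_pos
  · apply intervalIntegral.intervalIntegral_pos_of_pos_on ha _ (by linarith)
    intro t ht
    have h1 : M < u t := hs ⟨ht.1.le, by linarith [ht.2]⟩ hm ht.2
    have h2 : 0 < Real.cos (k * t) := by
      apply Real.cos_pos_of_mem_Ioo
      constructor
      · have := mul_pos hk' ht.1; linarith
      · have := mul_lt_mul_of_pos_left ht.2 hk'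
        linarith
    exact mul_pos (by linarith) h2
  · apply intervalIntegral.intervalIntegral_pos_of_pos_on hb _ (by linarith)
    intro t ht
    have h1 : u t < M := hs hm ⟨by linarith [ht.1], ht.2.le⟩ ht.1
    have h2 : Real.cos (k * t) < 0 := by
      apply Real.cos_neg_of_pi_div_two_lt_of_lt
      · have := mul_lt_mul_of_pos_left ht.1 hk'
        linarith
      · have := mul_lt_mul_of_pos_left ht.2 hk'
        linarith
    exact mul_pos_of_neg_of_neg (by linarith) h2

/-- alternating sums of an increasing positive sequence -/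
lemma alt_sign (R : ℕ → ℝ) (j : ℕ) (h0 : 0 < R 0) (h1 : ∀ i, i < j → R i < R (i + 1)) :
    0 < (-1 : ℝ) ^ j * ∑ i ∈ Finset.range (j + 1), (-1) ^ i * R i ∧
    (-1 : ℝ) ^ j * ∑ i ∈ Finset.range (j + 1), (-1) ^ i * R i ≤ R j := by
  induction j with
  | zero => simpa using h0
  | succ j ih =>
    obtain ⟨g1, g2⟩ := ih (fun i hi => h1 i (by omega))
    have h2 := h1 j (by omega)
    rw [Finset.sum_range_succ]
    have hE : ((-1 : ℝ) ^ j) * (-1) ^ j = 1 := by
      rw [← pow_add, ← two_mul, pow_mul]; norm_num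
    have e : (-1 : ℝ) ^ (j + 1) * (∑ i ∈ Finset.range (j + 1), (-1) ^ i * R i +
        (-1) ^ (j + 1) * R (j + 1)) =
        R (j + 1) - (-1 : ℝ) ^ j * ∑ i ∈ Finset.range (j + 1), (-1) ^ i * R i := by
      rw [pow_succ]
      linear_combination (R (j + 1)) * hE
    rw [e]
    constructor <;> linarith

/-- the square of the density -/
noncomputable def W2 (x b : ℝ) : ℝ := (1 - Real.cos b ^ 2) / (1 - (x - Real.cos b) ^ 2)

section
variable {x : ℝ} (hx0 : 0 < x) (hx2 : x < 2)
include hx0 hx2

lemma cos_in {b : ℝ} (hb : b ∈ Ioo 0 (Real.arccos (x - 1))) :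
    x - 1 < Real.cos b ∧ Real.cos b < 1 := by
  have hpi := Real.arccos_le_pi (x - 1)
  constructor
  · have h1 : Real.cos (Real.arccos (x - 1)) < Real.cos b :=
      Real.cos_lt_cos_of_nonneg_of_le_pi hb.1.le hpi hb.2
    rwa [Real.cos_arccos (by linarith) (by linarith)] at h1
  · have h1 : Real.cos b < Real.cos 0 :=
      Real.cos_lt_cos_of_nonneg_of_le_pi le_rfl (by linarith [hb.2]) hb.1
    rwa [Real.cos_zero] at h1

lemma W2_pos {b : ℝ} (hb : b ∈ Ioo 0 (Real.arccos (x - 1))) : 0 < W2 x b := by
  obtain ⟨h1, h2⟩ := cos_in hx0 hx2 hb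
  unfold W2
  apply div_pos <;> nlinarith

lemma W2_lt {b1 b2 : ℝ} (hb1 : b1 ∈ Ioo 0 (Real.arccos (x - 1)))
    (hb2 : b2 ∈ Ioo 0 (Real.arccos (x - 1))) (h : b1 < b2) : W2 x b1 < W2 x b2 := by
  obtain ⟨h1, h2⟩ := cos_in hx0 hx2 hb1
  obtain ⟨h3, h4⟩ := cos_in hx0 hx2 hb2
  have hpi := Real.arccos_le_pi (x - 1)
  have h5 : Real.cos b2 < Real.cos b1 :=
    Real.cos_lt_cos_of_nonneg_of_le_pi hb1.1.le (by linarith [hb2.2]) h
  unfold W2
  generalize Real.cos b1 = c1 at *
  generalize Real.cos b2 = c2 at *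
  rw [div_lt_div_iff₀ (by nlinarith) (by nlinarith)]
  have a1 : |c1| < 1 := abs_lt.2 ⟨by linarith, h2⟩
  have a2 : |c2| < 1 := abs_lt.2 ⟨by linarith, h4⟩
  have a3 : |x - c1| < 1 := abs_lt.2 ⟨by linarith, by linarith⟩
  have a4 : |x - c2| < 1 := abs_lt.2 ⟨by linarith, by linarith⟩
  have b1' : c1 * (x - c2) < 1 := by
    have := mul_lt_one_of_nonneg_of_lt_one_left (abs_nonneg c1) a1 a4.le
    rw [← abs_mul] at this
    exact lt_of_le_of_lt (le_abs_self _) this
  have b2' : c2 * (x - c1) < 1 := by
    have := mul_lt_one_of_nonneg_of_lt_one_left (abs_nonneg c2) a2 a3.le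
    rw [← abs_mul] at this
    exact lt_of_le_of_lt (le_abs_self _) this
  have hpos : 0 < x * (c1 - c2) * (2 - c1 * (x - c2) - c2 * (x - c1)) :=
    mul_pos (mul_pos hx0 (by linarith)) (by linarith)
  nlinarith [hpos]

lemma h_deriv {b : ℝ} (hb : b ∈ Ioo 0 (Real.arccos (x - 1))) :
    HasDerivAt (fun b => Real.arccos (x - Real.cos b)) (-√(W2 x b)) b := by
  obtain ⟨h1, h2⟩ := cos_in hx0 hx2 hb
  have hpi := Real.arccos_le_pi (x - 1)
  have hd : HasDerivAt (fun b : ℝ => x - Real.cos b) (Real.sin b) b := by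
    have := (hasDerivAt_const b x).sub (Real.hasDerivAt_cos b)
    refine this.congr_deriv ?_
    ring
  have h5 := (Real.hasDerivAt_arccos (x := x - Real.cos b) (by linarith) (by linarith)).comp b hd
  refine h5.congr_deriv ?_
  unfold W2
  rw [Real.sqrt_div' _ (by nlinarith), ← Real.sin_eq_sqrt_one_sub_cos_sq hb.1.le (by linarith [hb.2])]
  ring

end

/-- the sign of the function at the points `1 + cos (j π / k)` -/
lemma sign_at {k j : ℕ} (hj : 1 ≤ j) (hjk : j < k) :
    0 < (-1 : ℝ) ^ (j - 1) * FF k (1 + Real.cos (j * (Real.pi / k))) := by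
  obtain ⟨j, rfl⟩ : ∃ i, j = i + 1 := ⟨j - 1, by omega⟩
  rw [Nat.add_sub_cancel]
  have hk : 0 < k := by omega
  have hk' : (0 : ℝ) < k := by exact_mod_cast hk
  have hpi := Real.pi_pos
  set d := Real.pi / k with hd
  have hd0 : 0 < d := by positivity
  have hkd : (k : ℝ) * d = Real.pi := by rw [hd]; field_simp
  have hj' : ((j + 1 : ℕ) : ℝ) < k := by exact_mod_cast hjk
  have hj0 : (0 : ℝ) < ((j + 1 : ℕ) : ℝ) := by positivity
  set T := ((j + 1 : ℕ) : ℝ) * d with hT
  have hT0 : 0 < T := mul_pos hj0 hd0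
  have hT1 : T < Real.pi := by rw [hT, ← hkd]; exact mul_lt_mul_of_pos_right hj' hd0
  have hcT1 : Real.cos T < 1 := by
    have := Real.cos_lt_cos_of_nonneg_of_le_pi le_rfl hT1.le hT0
    rwa [Real.cos_zero] at this
  have hcT2 : -1 < Real.cos T := by
    have := Real.cos_lt_cos_of_nonneg_of_le_pi hT0.le le_rfl hT1
    rwa [Real.cos_pi] at this
  set x := 1 + Real.cos T with hx
  have hx0 : 0 < x := by linarith
  have hx2 : x < 2 := by linarith
  have hac : Real.arccos (x - 1) = T := by
    rw [hx, add_sub_cancel_left, Real.arccos_cos hT0.le hT1.le]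
  have hform := FF_form2 (X := x / 2) (by linarith) (by linarith) k
  rw [show 2 * (x / 2) = x by ring, hac] at hform
  rw [hform]
  have hcont : Continuous (fun b => Real.arccos (x - Real.cos b) * (k * Real.cos (k * b))) := by
    fun_prop
  have hsum : (∫ b in (0 : ℝ)..T, Real.arccos (x - Real.cos b) * (k * Real.cos (k * b))) =
      ∑ i ∈ Finset.range (j + 1), ∫ b in ((i : ℝ) * d)..(((i + 1 : ℕ) : ℝ) * d),
        Real.arccos (x - Real.cos b) * (k * Real.cos (k * b)) := by
    have := intervalIntegral.sum_integral_adjacent_intervals (μ := volume)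
      (f := fun b => Real.arccos (x - Real.cos b) * (k * Real.cos (k * b)))
      (a := fun i : ℕ => (i : ℝ) * d) (n := j + 1) (fun i _ => hcont.intervalIntegrable _ _)
    rw [this]
    simp only [Nat.cast_zero, zero_mul]
    rfl
  set R : ℕ → ℝ := fun i => ∫ t in (0 : ℝ)..d,
    Real.arccos (x - Real.cos (i * d + t)) * Real.cos (k * t) with hR
  have hterm : ∀ i : ℕ, (∫ b in ((i : ℝ) * d)..(((i + 1 : ℕ) : ℝ) * d),
        Real.arccos (x - Real.cos b) * (k * Real.cos (k * b))) = k * ((-1) ^ i * R i) := by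
    intro i
    have h1 := intervalIntegral.integral_comp_add_left (a := 0) (b := d)
      (fun b => Real.arccos (x - Real.cos b) * (k * Real.cos (k * b))) ((i : ℝ) * d)
    rw [add_zero, show (i : ℝ) * d + d = ((i + 1 : ℕ) : ℝ) * d by push_cast; ring] at h1
    rw [← h1, hR]
    simp only []
    rw [← intervalIntegral.integral_const_mul, ← intervalIntegral.integral_const_mul]
    refine intervalIntegral.integral_congr (fun t _ => ?_)
    show Real.arccos (x - Real.cos (i * d + t)) * (k * Real.cos (k * (i * d + t))) =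
      k * ((-1) ^ i * (Real.arccos (x - Real.cos (i * d + t)) * Real.cos (k * t)))
    have h2 : (k : ℝ) * (i * d + t) = k * t + i * Real.pi := by rw [← hkd]; ring
    rw [h2, Real.cos_add_nat_mul_pi]
    ring
  rw [hsum]
  simp only [hterm]
  rw [← Finset.mul_sum]
  have hhc : ∀ c : ℝ, Continuous (fun t => Real.arccos (x - Real.cos (c + t))) := fun c => by
    fun_prop
  have hmem : ∀ i : ℕ, i ≤ j → ∀ t ∈ Ioo 0 d, (i : ℝ) * d + t ∈ Ioo 0 (Real.arccos (x - 1)) := by
    intro i hi t ht
    rw [hac, hT]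
    have hi' : (i : ℝ) ≤ (j : ℝ) := by exact_mod_cast hi
    have h1 : (i : ℝ) * d ≤ j * d := mul_le_mul_of_nonneg_right hi' hd0.le
    have h2 : 0 ≤ (i : ℝ) * d := by positivity
    constructor
    · linarith [ht.1]
    · push_cast
      linarith [ht.2]
  have hder : ∀ i : ℕ, i ≤ j → ∀ t ∈ Ioo 0 d,
      HasDerivAt (fun t => Real.arccos (x - Real.cos (i * d + t)))
        (-√(W2 x (i * d + t))) t := by
    intro i hi t ht
    have h1 := h_deriv hx0 hx2 (hmem i hi t ht)
    have h2 : HasDerivAt (fun t : ℝ => (i : ℝ) * d + t) 1 t := (hasDerivAt_id t).const_add _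
    have h3 := h1.comp t h2
    rw [mul_one] at h3
    exact h3
  have hR0 : 0 < R 0 := by
    apply pair_pos hk (hhc _).continuousOn
    apply strictAntiOn_of_deriv_neg (convex_Icc _ _) (hhc _).continuousOn
    intro t ht
    rw [interior_Icc] at ht
    rw [(hder 0 (by omega) t ht).deriv]
    have := Real.sqrt_pos.2 (W2_pos hx0 hx2 (hmem 0 (by omega) t ht))
    linarith
  have hRs : ∀ i, i < j → R i < R (i + 1) := by
    intro i hi
    have h1 : 0 < ∫ t in (0 : ℝ)..(Real.pi / k),
        (Real.arccos (x - Real.cos (((i + 1 : ℕ) : ℝ) * d + t)) -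
          Real.arccos (x - Real.cos (i * d + t))) * Real.cos (k * t) := by
      apply pair_pos hk ((hhc _).sub (hhc _)).continuousOn
      apply strictAntiOn_of_deriv_neg (convex_Icc _ _) ((hhc _).sub (hhc _)).continuousOn
      intro t ht
      rw [interior_Icc] at ht
      rw [((hder (i + 1) (by omega) t ht).sub (hder i (by omega) t ht)).deriv]
      have h2 := W2_lt hx0 hx2 (hmem i (by omega) t ht) (hmem (i + 1) (by omega) t ht)
        (by push_cast; linarith)
      have h3 := Real.sqrt_lt_sqrt (W2_pos hx0 hx2 (hmem i (by omega) t ht)).le h2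
      linarith
    have h4 : R (i + 1) - R i = ∫ t in (0 : ℝ)..(Real.pi / k),
        (Real.arccos (x - Real.cos (((i + 1 : ℕ) : ℝ) * d + t)) -
          Real.arccos (x - Real.cos (i * d + t))) * Real.cos (k * t) := by
      rw [hR]
      simp only []
      rw [← intervalIntegral.integral_sub]
      · refine intervalIntegral.integral_congr (fun t _ => ?_)
        show _ - _ = _
        ring
      · exact ((hhc _).mul (by fun_prop)).intervalIntegrable _ _
      · exact ((hhc _).mul (by fun_prop)).intervalIntegrable _ _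
    linarith
  have := (alt_sign R j hR0 hRs).1
  have h5 := mul_pos hk' this
  calc (0 : ℝ) < _ := h5
    _ = _ := by ring

/-- the same integral over a fixed interval -/
noncomputable def GG (k : ℕ) (x : ℝ) : ℝ :=
  ∫ l in (0 : ℝ)..Real.pi, Real.sin (k * Real.arccos (x - Real.cos l))

lemma GG_cont (k : ℕ) : Continuous (GG k) := by
  unfold GG
  apply intervalIntegral.continuous_parametric_intervalIntegral_of_continuous'
  fun_prop

lemma FF_eq_GG (k : ℕ) {x : ℝ} (hx0 : 0 ≤ x) (hx2 : x ≤ 2) : FF k x = GG k x := by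
  unfold FF GG
  have hc : Continuous (fun l => Real.sin (k * Real.arccos (x - Real.cos l))) := by fun_prop
  rw [← intervalIntegral.integral_add_adjacent_intervals (hc.intervalIntegrable 0
    (Real.arccos (x - 1))) (hc.intervalIntegrable _ Real.pi)]
  have hz : (∫ l in (Real.arccos (x - 1))..Real.pi,
      Real.sin (k * Real.arccos (x - Real.cos l))) = 0 := by
    have : (∫ l in (Real.arccos (x - 1))..Real.pi,
      Real.sin (k * Real.arccos (x - Real.cos l))) = ∫ l in (Real.arccos (x - 1))..Real.pi, 0 := by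
      refine intervalIntegral.integral_congr (fun l hl => ?_)
      rw [uIcc_of_le (Real.arccos_le_pi _)] at hl
      show Real.sin (k * Real.arccos (x - Real.cos l)) = 0
      have h1 : Real.cos l ≤ Real.cos (Real.arccos (x - 1)) :=
        Real.cos_le_cos_of_nonneg_of_le_pi (Real.arccos_nonneg _) hl.2 hl.1
      rw [Real.cos_arccos (by linarith) (by linarith)] at h1
      rw [Real.arccos_eq_zero.2 (by linarith), mul_zero, Real.sin_zero]
    rw [this]; simp
  rw [hz, add_zero]

lemma GG_zero {k : ℕ} (hk : Odd k) : 0 < GG k 0 := by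
  have hk0 : 0 < k := hk.pos
  have hk' : (0 : ℝ) < k := by exact_mod_cast hk0
  unfold GG
  have h1 : (∫ l in (0 : ℝ)..Real.pi, Real.sin (k * Real.arccos (0 - Real.cos l))) =
      ∫ l in (0 : ℝ)..Real.pi, Real.sin (k * (Real.pi - l)) := by
    refine intervalIntegral.integral_congr (fun l hl => ?_)
    rw [uIcc_of_le Real.pi_pos.le] at hl
    show Real.sin (k * Real.arccos (0 - Real.cos l)) = Real.sin (k * (Real.pi - l))
    rw [zero_sub, Real.arccos_neg, Real.arccos_cos hl.1 hl.2]
  have hd : ∀ t : ℝ, HasDerivAt (fun t => Real.cos (k * (Real.pi - t)) / k)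
      (Real.sin (k * (Real.pi - t))) t := by
    intro t
    have h2 : HasDerivAt (fun t : ℝ => (k : ℝ) * (Real.pi - t)) (k * (-1)) t := by
      have := ((hasDerivAt_const t Real.pi).sub (hasDerivAt_id t)).const_mul (k : ℝ)
      refine this.congr_deriv ?_
      ring
    have h1 := ((Real.hasDerivAt_cos (k * (Real.pi - t))).comp t h2).div_const (k : ℝ)
    refine h1.congr_deriv ?_
    field_simp
  rw [h1, intervalIntegral.integral_eq_sub_of_hasDerivAt (fun t _ => hd t)
    ((by fun_prop : Continuous _).intervalIntegrable _ _)]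
  rw [sub_self, mul_zero, Real.cos_zero, sub_zero]
  have h3 : Real.cos (k * Real.pi) = -1 := by
    have := Real.cos_nat_mul_pi k
    rw [this, hk.neg_one_pow]
  rw [h3]
  have : 0 < 1 / (k : ℝ) := by positivity
  have e : (1 : ℝ) / k - -1 / k = 2 * (1 / k) := by ring
  rw [e]; positivity

/-- the lower bound for the number of zeros -/
lemma lower_count {k : ℕ} (hk : 1 ≤ k)
    (hlast : 2 ≤ k → ∃ p, 0 ≤ p ∧ p < 1 + Real.cos (((k - 1 : ℕ) : ℝ) * (Real.pi / k)) ∧
      0 < (-1 : ℝ) ^ (k - 1) * FF k p) :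
    ∃ s : Finset ℝ, s.card = k - 1 ∧ ∀ z ∈ s, z ∈ Ioo (0 : ℝ) 2 ∧ FF k z = 0 := by
  classical
  rcases Nat.lt_or_ge k 2 with h2 | h2
  · refine ⟨∅, ?_, by simp⟩
    rw [Finset.card_empty]; omega
  obtain ⟨p, hp0, hp1, hp2⟩ := hlast h2
  have hkk : (0 : ℝ) < k := by exact_mod_cast (by omega : 0 < k)
  have hpi := Real.pi_pos
  set d := Real.pi / k with hd
  have hd0 : 0 < d := by positivity
  have hkd : (k : ℝ) * d = Real.pi := by rw [hd]; field_simp
  -- the points
  set P : ℕ → ℝ := fun i => if i < k then 1 + Real.cos ((i : ℝ) * d) else p with hP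
  have hmono : ∀ i, 1 ≤ i → i < k → P (i + 1) < P i := by
    intro i hi hik
    rcases Nat.lt_or_ge (i + 1) k with h | h
    · have e1 : P (i + 1) = 1 + Real.cos (((i + 1 : ℕ) : ℝ) * d) := if_pos h
      have e2 : P i = 1 + Real.cos ((i : ℝ) * d) := if_pos hik
      rw [e1, e2]
      have h3 : Real.cos (((i + 1 : ℕ) : ℝ) * d) < Real.cos ((i : ℝ) * d) := by
        apply Real.cos_lt_cos_of_nonneg_of_le_pi (by positivity)
        · rw [← hkd]
          apply mul_le_mul_of_nonneg_right _ hd0.le
          exact_mod_cast h.le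
        · push_cast; linarith
      linarith
    · have hik' : i = k - 1 := by omega
      have e1 : P (i + 1) = p := if_neg (by omega)
      have e2 : P i = 1 + Real.cos ((i : ℝ) * d) := if_pos hik
      rw [e1, e2, hik']
      exact hp1
  have hrange : ∀ i, 1 ≤ i → i ≤ k → 0 ≤ P i ∧ P i < 2 := by
    intro i hi hik
    rcases Nat.lt_or_ge i k with h | h
    · have e1 : P i = 1 + Real.cos ((i : ℝ) * d) := if_pos h
      rw [e1]
      have hi0 : (0 : ℝ) < i := by exact_mod_cast hi
      have hik'' : (i : ℝ) * d ≤ Real.pi := by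
        rw [← hkd]
        apply mul_le_mul_of_nonneg_right _ hd0.le
        exact_mod_cast h.le
      have h3 : Real.cos ((i : ℝ) * d) < Real.cos 0 :=
        Real.cos_lt_cos_of_nonneg_of_le_pi le_rfl hik'' (by positivity)
      rw [Real.cos_zero] at h3
      have h4 := Real.neg_one_le_cos ((i : ℝ) * d)
      constructor <;> linarith
    · have e1 : P i = p := if_neg (by omega)
      rw [e1]
      refine ⟨hp0, ?_⟩
      have := Real.cos_le_one (((k - 1 : ℕ) : ℝ) * d)
      linarith
  have hsign : ∀ i, 1 ≤ i → i ≤ k → 0 < (-1 : ℝ) ^ (i - 1) * FF k (P i) := by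
    intro i hi hik
    rcases Nat.lt_or_ge i k with h | h
    · have e1 : P i = 1 + Real.cos ((i : ℝ) * d) := if_pos h
      rw [e1]
      exact sign_at hi h
    · have e1 : P i = p := if_neg (by omega)
      rw [e1, show i = k by omega]
      exact hp2
  have hz : ∀ i : Fin (k - 1), ∃ z, z ∈ Ioo (P (i.val + 2)) (P (i.val + 1)) ∧ FF k z = 0 := by
    intro i
    have hi := i.isLt
    have hlt := hmono (i.val + 1) (by omega) (by omega)
    have hr1 := hrange (i.val + 1) (by omega) (by omega)
    have hr2 := hrange (i.val + 1 + 1) (by omega) (by omega)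
    have hs1 := hsign (i.val + 1) (by omega) (by omega)
    have hs2 := hsign (i.val + 1 + 1) (by omega) (by omega)
    rw [Nat.add_sub_cancel] at hs1 hs2
    rw [FF_eq_GG k hr1.1 hr1.2.le] at hs1
    rw [FF_eq_GG k hr2.1 hr2.2.le] at hs2
    have hc := GG_cont k
    have hzz : ∃ z ∈ Ioo (P (i.val + 1 + 1)) (P (i.val + 1)), GG k z = 0 := by
      rw [pow_succ] at hs2
      rcases neg_one_pow_eq_or ℝ i.val with he | he
      · rw [he] at hs1 hs2
        have := intermediate_value_Ioo hlt.le hc.continuousOn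
          (show (0 : ℝ) ∈ Ioo (GG k (P (i.val + 1 + 1))) (GG k (P (i.val + 1))) from
            ⟨by linarith, by linarith⟩)
        obtain ⟨z, hz, hz'⟩ := this
        exact ⟨z, hz, hz'⟩
      · rw [he] at hs1 hs2
        have := intermediate_value_Ioo' hlt.le hc.continuousOn
          (show (0 : ℝ) ∈ Ioo (GG k (P (i.val + 1))) (GG k (P (i.val + 1 + 1))) from
            ⟨by linarith, by linarith⟩)
        obtain ⟨z, hz, hz'⟩ := this
        exact ⟨z, hz, hz'⟩
    obtain ⟨z, hz1, hz2⟩ := hzz
    refine ⟨z, hz1, ?_⟩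
    rw [FF_eq_GG k (by linarith [hz1.1, hr2.1]) (by linarith [hz1.2, hr1.2]), hz2]
  choose z hz1 hz2 using hz
  have hPanti : ∀ i j, 1 ≤ i → i ≤ j → j ≤ k → P j ≤ P i := by
    intro i j hi hij
    induction j, hij using Nat.le_induction with
    | base => intro _; exact le_rfl
    | succ j hj ih =>
      intro hjk
      exact (hmono j (by omega) (by omega)).le.trans (ih (by omega))
  have hinj : Function.Injective z := by
    have hanti : StrictAnti z := by
      intro i j hij
      have hij' : i.val < j.val := hij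
      have := hPanti (i.val + 2) (j.val + 1) (by omega) (by omega) (by have := j.isLt; omega)
      exact lt_of_lt_of_le (hz1 j).2 (this.trans (hz1 i).1.le)
    exact hanti.injective
  refine ⟨Finset.univ.image z, ?_, ?_⟩
  · rw [Finset.card_image_of_injective _ hinj]; simp
  · intro w hw
    obtain ⟨i, _, rfl⟩ := Finset.mem_image.1 hw
    have hi := i.isLt
    refine ⟨⟨?_, ?_⟩, hz2 i⟩
    · exact lt_of_le_of_lt (hrange (i.val + 2) (by omega) (by omega)).1 (hz1 i).1
    · exact lt_trans (hz1 i).2 (hrange (i.val + 1) (by omega) (by omega)).2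

end Pool.Agent.Q80.ZK
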