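import Mathlib
import Pool.Agent.Q80.ZK.K3
import Pool.Agent.Q80.ZK.K4
import Pool.Agent.Q80.ZK.K5

/-! The power series formulas for the function of the problem. -/

open Set Filter Topology MeasureTheory intervalIntegral

namespace Pool.Agent.Q80.ZK

lemma PS_sum {ι : Type*} (s : Finset ι) (w : ι → ℝ) (f : ι → ℕ → ℝ) (h : ∀ a ∈ s, Gr (f a))
    {y : ℝ} (hy : |y| < 1) : PS (fun l => ∑ a ∈ s, w a * f a l) y = ∑ a ∈ s, w a * PS (f a) y := by
  unfold PS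
  have h1 : HasSum (fun l => ∑ a ∈ s, w a * (f a l * y ^ l)) (∑ a ∈ s, w a * ∑' l, f a l * y ^ l) :=
    hasSum_sum (fun a ha => ((h a ha).summable hy).hasSum.mul_left (w a))
  rw [← h1.tsum_eq]
  refine tsum_congr (fun l => ?_)
  rw [Finset.sum_mul]
  exact Finset.sum_congr rfl (fun a _ => by ring)

section
variable {X : ℝ} (hX0 : 0 < X) (hX1 : X < 1)
include hX0 hX1

lemma R_pos (t : ℝ) : 0 < 1 - (1 - X ^ 2) * Real.sin t ^ 2 := by
  have h1 := Real.sin_sq_le_one t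
  have hy : 0 < 1 - X ^ 2 := by nlinarith
  have hx : 0 < X ^ 2 := by positivity
  have h2 : (1 - X ^ 2) * Real.sin t ^ 2 ≤ (1 - X ^ 2) * 1 := mul_le_mul_of_nonneg_left h1 hy.le
  linarith

/-- pointwise data of the angles -/
lemma angles {t : ℝ} (ht : t ∈ uIcc 0 (Real.pi / 2)) :
    Real.sin (Real.arcsin (√(1 - X ^ 2) * Real.sin t)) ^ 2 = (1 - X ^ 2) * Real.sin t ^ 2 ∧
    Real.cos (Real.arcsin (√(1 - X ^ 2) * Real.sin t)) =
      √(1 - (1 - X ^ 2) * Real.sin t ^ 2) ∧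
    Real.cos (Real.arccos (X / √(1 - (1 - X ^ 2) * Real.sin t ^ 2))) =
      X / √(1 - (1 - X ^ 2) * Real.sin t ^ 2) ∧
    Real.sin (Real.arccos (X / √(1 - (1 - X ^ 2) * Real.sin t ^ 2))) =
      √(1 - X ^ 2) * Real.cos t / √(1 - (1 - X ^ 2) * Real.sin t ^ 2) := by
  have hpi := Real.pi_pos
  rw [uIcc_of_le (by linarith)] at ht
  have hc : 0 ≤ Real.cos t := Real.cos_nonneg_of_mem_Icc ⟨by linarith [ht.1], ht.2⟩
  have hy : 0 < 1 - X ^ 2 := by nlinarith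
  have hR := R_pos hX0 hX1 t
  set s := √(1 - X ^ 2) with hs
  have hs2 : s ^ 2 = 1 - X ^ 2 := Real.sq_sqrt hy.le
  have hs0 : 0 < s := Real.sqrt_pos.2 hy
  have hs1 : s < 1 := by nlinarith
  have hb : |s * Real.sin t| < 1 := by
    rw [abs_mul, abs_of_pos hs0]
    have := Real.abs_sin_le_one t
    nlinarith [abs_nonneg (Real.sin t)]
  have hb' := abs_lt.1 hb
  set R := √(1 - (1 - X ^ 2) * Real.sin t ^ 2) with hRd
  have hR0 : 0 < R := Real.sqrt_pos.2 hR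
  have hR2 : R ^ 2 = 1 - (1 - X ^ 2) * Real.sin t ^ 2 := Real.sq_sqrt hR.le
  have hXR : X ≤ R := by
    have h1 : X ^ 2 ≤ R ^ 2 := by
      rw [hR2]
      have := Real.sin_sq_le_one t
      nlinarith
    exact (pow_le_pow_iff_left₀ hX0.le hR0.le two_ne_zero).1 h1
  have hratio : X / R ≤ 1 := (div_le_one hR0).2 hXR
  have hratio0 : 0 < X / R := div_pos hX0 hR0
  refine ⟨?_, ?_, ?_, ?_⟩
  · rw [Real.sin_arcsin (by linarith) (by linarith), mul_pow, hs2]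
  · rw [Real.cos_arcsin, mul_pow, hs2]
  · rw [Real.cos_arccos (by linarith) hratio]
  · rw [Real.sin_arccos]
    have h1 : 1 - (X / R) ^ 2 = (s * Real.cos t / R) ^ 2 := by
      rw [div_pow, div_pow, mul_pow, hs2]
      have h2 : Real.cos t ^ 2 = 1 - Real.sin t ^ 2 := by
        have := Real.sin_sq_add_cos_sq t; linarith
      have hR2' : R ^ 2 ≠ 0 := by positivity
      rw [eq_div_iff hR2', sub_mul, div_mul_cancel₀ _ hR2', hR2, h2]
      ring
    rw [h1, Real.sqrt_sq (by positivity)]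

lemma rpow_half (t : ℝ) (j : ℕ) :
    (1 - (1 - X ^ 2) * Real.sin t ^ 2) ^ ((j : ℝ) + 1 / 2) =
      (√(1 - (1 - X ^ 2) * Real.sin t ^ 2)) ^ (2 * j + 1) := by
  have hR := R_pos hX0 hX1 t
  generalize 1 - (1 - X ^ 2) * Real.sin t ^ 2 = B at hR ⊢
  rw [Real.rpow_add hR, Real.rpow_natCast, ← Real.sqrt_eq_rpow, pow_succ (√B), pow_mul,
    Real.sq_sqrt hR.le]

lemma term_cont (i q j : ℕ) : Continuous (fun t => Real.sin t ^ (2 * i) * Real.cos t ^ (2 * q) *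
        (1 / (1 - (1 - X ^ 2) * Real.sin t ^ 2) ^ ((j : ℝ) + 1 / 2))) := by
  apply Continuous.mul (by fun_prop)
  apply Continuous.div (by fun_prop)
  · apply Continuous.rpow_const (by fun_prop)
    intro t
    right; positivity
  · intro t
    exact (Real.rpow_pos_of_pos (R_pos hX0 hX1 t) _).ne'

lemma FF_even (m : ℕ) : FF (2 * m) (2 * X) =
    -X * PS (TT (PA m).coeff (Polynomial.X * PB m).coeff m) (1 - X ^ 2) := by
  have hy : 0 < 1 - X ^ 2 := by nlinarith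
  have hy1 : 1 - X ^ 2 < 1 := by nlinarith
  have hab : |1 - X ^ 2| < 1 := by rw [abs_of_pos hy]; exact hy1
  rw [FF_form4 hX0 hX1]
  have hPS : PS (TT (PA m).coeff (Polynomial.X * PB m).coeff m) (1 - X ^ 2) =
      ∑ a ∈ Finset.range (m + 1) ×ˢ Finset.range (m + 1),
      ((-1) ^ a.1 * (PA m).coeff a.1 * ((-1) ^ a.2 * (Polynomial.X * PB m).coeff a.2)) *
        PS (bb (a.1 : ℤ) (a.2 : ℤ)) (1 - X ^ 2) := by
    unfold TT
    exact PS_sum _ (fun a : ℕ × ℕ =>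
      ((-1) ^ a.1 * (PA m).coeff a.1 * ((-1) ^ a.2 * (Polynomial.X * PB m).coeff a.2)))
      (fun a : ℕ × ℕ => bb (a.1 : ℤ) (a.2 : ℤ)) (fun a _ => Gr_bb a.1 a.2) hab
  have hbb : ∀ i j : ℕ, PS (bb (i : ℤ) (j : ℤ)) (1 - X ^ 2) = 2 * (1 - X ^ 2) ^ (i + j) *
      ∫ t in (0 : ℝ)..(Real.pi / 2), Real.sin t ^ (2 * i) * Real.cos t ^ (2 * j) *
        (1 / (1 - (1 - X ^ 2) * Real.sin t ^ 2) ^ ((j : ℝ) + 1 / 2)) := fun i j =>
    (bb_hasSum i j hy.le hy1).tsum_eq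
  rw [hPS]
  have hint : (∫ t in (0 : ℝ)..(Real.pi / 2),
      Real.cos ((2 * m : ℕ) * Real.arcsin (√(1 - X ^ 2) * Real.sin t)) *
      Real.sin ((2 * m : ℕ) * Real.arccos (X / √(1 - (1 - X ^ 2) * Real.sin t ^ 2))) *
      (√(1 - X ^ 2) * Real.cos t / √(1 - (1 - X ^ 2) * Real.sin t ^ 2))) =
      ∫ t in (0 : ℝ)..(Real.pi / 2), ∑ a ∈ Finset.range (m + 1) ×ˢ Finset.range (m + 1),
        (-X * (((-1) ^ a.1 * (PA m).coeff a.1 * ((-1) ^ a.2 * (Polynomial.X * PB m).coeff a.2)) *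
          (1 - X ^ 2) ^ (a.1 + a.2))) *
        (Real.sin t ^ (2 * a.1) * Real.cos t ^ (2 * a.2) *
        (1 / (1 - (1 - X ^ 2) * Real.sin t ^ 2) ^ ((a.2 : ℝ) + 1 / 2))) := by
    refine intervalIntegral.integral_congr (fun t ht => ?_)
    obtain ⟨h1, h2, h3, h4⟩ := angles hX0 hX1 ht
    show Real.cos ((2 * m : ℕ) * Real.arcsin (√(1 - X ^ 2) * Real.sin t)) *
      Real.sin ((2 * m : ℕ) * Real.arccos (X / √(1 - (1 - X ^ 2) * Real.sin t ^ 2))) *
      (√(1 - X ^ 2) * Real.cos t / √(1 - (1 - X ^ 2) * Real.sin t ^ 2)) = _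
    have t1 := (trig_all m (Real.arcsin (√(1 - X ^ 2) * Real.sin t))).1.1
    have t2 := (trig_all m (Real.arccos (X / √(1 - (1 - X ^ 2) * Real.sin t ^ 2)))).1.2
    have hcast : ((2 * m : ℕ) : ℝ) = 2 * (m : ℝ) := by push_cast; ring
    rw [hcast, t1, t2, h1, h3]
    set R := √(1 - (1 - X ^ 2) * Real.sin t ^ 2) with hRd
    set S := Real.sin (Real.arccos (X / R)) with hS
    have hR0 : 0 < R := Real.sqrt_pos.2 (R_pos hX0 hX1 t)
    have hS2 : S ^ 2 = (1 - X ^ 2) * Real.cos t ^ 2 / R ^ 2 := by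
      rw [h4, div_pow, mul_pow, Real.sq_sqrt hy.le]
    rw [← h4]
    have e1 : (PA m).eval (-((1 - X ^ 2) * Real.sin t ^ 2)) *
        (S * (X / R) * (PB m).eval (-S ^ 2)) * S =
        -(X / R) * ((PA m).eval (-((1 - X ^ 2) * Real.sin t ^ 2)) *
          (Polynomial.X * PB m).eval (-(S ^ 2))) := by
      rw [Polynomial.eval_mul, Polynomial.eval_X]
      ring
    rw [e1, eval_sum (degrees m).1, eval_sum (degrees m).2.2, Finset.sum_mul_sum,
      ← Finset.sum_product', Finset.mul_sum]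
    refine Finset.sum_congr rfl (fun a _ => ?_)
    rw [rpow_half hX0 hX1, ← hRd, hS2, div_pow, mul_pow, mul_pow, ← pow_mul, ← pow_mul, ← pow_mul,
      pow_add (1 - X ^ 2), pow_succ R]
    have hRn : R ^ (2 * a.2) ≠ 0 := by positivity
    field_simp
  rw [hint, intervalIntegral.integral_finsetSum]
  · simp only [intervalIntegral.integral_const_mul]
    rw [Finset.mul_sum, Finset.mul_sum]
    refine Finset.sum_congr rfl (fun a _ => ?_)
    rw [hbb]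
    ring
  · intro a _
    exact (continuous_const.mul (term_cont hX0 hX1 a.1 a.2 a.2)).intervalIntegrable _ _

/-- coefficients in the odd case -/
noncomputable def CC (m : ℕ) (l : ℕ) : ℝ :=
  ∑ a ∈ Finset.range (m + 1) ×ˢ Finset.range (m + 1),
    ((-1) ^ a.1 * (PC m).coeff a.1 * ((-1) ^ a.2 * (PE m).coeff a.2)) * cc (a.1 : ℤ) (a.2 : ℤ) l

lemma FF_odd (m : ℕ) : FF (2 * m + 1) (2 * X) = PS (CC m) (1 - X ^ 2) := by
  have hy : 0 < 1 - X ^ 2 := by nlinarith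
  have hy1 : 1 - X ^ 2 < 1 := by nlinarith
  have hab : |1 - X ^ 2| < 1 := by rw [abs_of_pos hy]; exact hy1
  rw [FF_form4 hX0 hX1]
  have hPS : PS (CC m) (1 - X ^ 2) =
      ∑ a ∈ Finset.range (m + 1) ×ˢ Finset.range (m + 1),
      ((-1) ^ a.1 * (PC m).coeff a.1 * ((-1) ^ a.2 * (PE m).coeff a.2)) *
        PS (cc (a.1 : ℤ) (a.2 : ℤ)) (1 - X ^ 2) := by
    unfold CC
    exact PS_sum _ (fun a : ℕ × ℕ =>
      ((-1) ^ a.1 * (PC m).coeff a.1 * ((-1) ^ a.2 * (PE m).coeff a.2)))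
      (fun a : ℕ × ℕ => cc (a.1 : ℤ) (a.2 : ℤ)) (fun a _ => Gr_cc a.1 a.2) hab
  have hcc : ∀ i j : ℕ, PS (cc (i : ℤ) (j : ℤ)) (1 - X ^ 2) = 2 * (1 - X ^ 2) ^ (i + j + 1) *
      ∫ t in (0 : ℝ)..(Real.pi / 2), Real.sin t ^ (2 * i) * Real.cos t ^ (2 * (j + 1)) *
        (1 / (1 - (1 - X ^ 2) * Real.sin t ^ 2) ^ ((j : ℝ) + 1 / 2)) := fun i j =>
    (cc_hasSum i j hy.le hy1).tsum_eq
  rw [hPS]
  have hint : (∫ t in (0 : ℝ)..(Real.pi / 2),
      Real.cos ((2 * m + 1 : ℕ) * Real.arcsin (√(1 - X ^ 2) * Real.sin t)) *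
      Real.sin ((2 * m + 1 : ℕ) * Real.arccos (X / √(1 - (1 - X ^ 2) * Real.sin t ^ 2))) *
      (√(1 - X ^ 2) * Real.cos t / √(1 - (1 - X ^ 2) * Real.sin t ^ 2))) =
      ∫ t in (0 : ℝ)..(Real.pi / 2), ∑ a ∈ Finset.range (m + 1) ×ˢ Finset.range (m + 1),
        ((((-1) ^ a.1 * (PC m).coeff a.1 * ((-1) ^ a.2 * (PE m).coeff a.2)) *
          (1 - X ^ 2) ^ (a.1 + a.2 + 1))) *
        (Real.sin t ^ (2 * a.1) * Real.cos t ^ (2 * (a.2 + 1)) *
        (1 / (1 - (1 - X ^ 2) * Real.sin t ^ 2) ^ ((a.2 : ℝ) + 1 / 2))) := by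
    refine intervalIntegral.integral_congr (fun t ht => ?_)
    obtain ⟨h1, h2, h3, h4⟩ := angles hX0 hX1 ht
    show Real.cos ((2 * m + 1 : ℕ) * Real.arcsin (√(1 - X ^ 2) * Real.sin t)) *
      Real.sin ((2 * m + 1 : ℕ) * Real.arccos (X / √(1 - (1 - X ^ 2) * Real.sin t ^ 2))) *
      (√(1 - X ^ 2) * Real.cos t / √(1 - (1 - X ^ 2) * Real.sin t ^ 2)) = _
    have t1 := (trig_all m (Real.arcsin (√(1 - X ^ 2) * Real.sin t))).2.1
    have t2 := (trig_all m (Real.arccos (X / √(1 - (1 - X ^ 2) * Real.sin t ^ 2)))).2.2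
    have hcast : ((2 * m + 1 : ℕ) : ℝ) = 2 * (m : ℝ) + 1 := by push_cast; ring
    rw [hcast, t1, t2, h1, h2]
    set R := √(1 - (1 - X ^ 2) * Real.sin t ^ 2) with hRd
    set S := Real.sin (Real.arccos (X / R)) with hS
    have hR0 : 0 < R := Real.sqrt_pos.2 (R_pos hX0 hX1 t)
    have hS2 : S ^ 2 = (1 - X ^ 2) * Real.cos t ^ 2 / R ^ 2 := by
      rw [h4, div_pow, mul_pow, Real.sq_sqrt hy.le]
    rw [← h4]
    have e1 : R * (PC m).eval (-((1 - X ^ 2) * Real.sin t ^ 2)) *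
        (S * (PE m).eval (-S ^ 2)) * S =
        (R * S ^ 2) * ((PC m).eval (-((1 - X ^ 2) * Real.sin t ^ 2)) *
          (PE m).eval (-(S ^ 2))) := by
      ring
    rw [e1, eval_sum (degree_C m), eval_sum (degree_E m), Finset.sum_mul_sum,
      ← Finset.sum_product', Finset.mul_sum]
    refine Finset.sum_congr rfl (fun a _ => ?_)
    rw [rpow_half hX0 hX1, ← hRd, hS2]
    have e2 : ((1 - X ^ 2) * Real.cos t ^ 2 / R ^ 2) ^ a.2 =
        (1 - X ^ 2) ^ a.2 * Real.cos t ^ (2 * a.2) / R ^ (2 * a.2) := by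
      rw [div_pow, mul_pow, ← pow_mul, ← pow_mul]
    have e3 : ((1 - X ^ 2) * Real.sin t ^ 2) ^ a.1 =
        (1 - X ^ 2) ^ a.1 * Real.sin t ^ (2 * a.1) := by
      rw [mul_pow, ← pow_mul]
    rw [e2, e3, pow_succ (1 - X ^ 2) (a.1 + a.2), pow_add (1 - X ^ 2) a.1 a.2, pow_succ R (2 * a.2),
      show 2 * (a.2 + 1) = 2 * a.2 + 2 by ring, pow_add (Real.cos t) (2 * a.2) 2]
    have hRn : R ^ (2 * a.2) ≠ 0 := by positivity
    generalize R ^ (2 * a.2) = Q at hRn ⊢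
    field_simp
  rw [hint, intervalIntegral.integral_finsetSum]
  · simp only [intervalIntegral.integral_const_mul]
    rw [Finset.mul_sum]
    refine Finset.sum_congr rfl (fun a _ => ?_)
    rw [hcc]
    ring
  · intro a _
    exact (continuous_const.mul (term_cont hX0 hX1 a.1 (a.2 + 1) a.2)).intervalIntegrable _ _

end

end Pool.Agent.Q80.ZK
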