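import Mathlib
import Pool.Agent.Q80.ZK.K6
import Pool.Agent.Q80.ZK.K7

/-! Assembly. -/

open Set Filter Topology MeasureTheory intervalIntegral

namespace Pool.Agent.Q80.ZK

lemma final_of {k : ℕ} (hk : 1 ≤ k) {g : ℕ → ℝ} (hg : Gr g) (hg0 : g 0 = 0)
    (hn : ¬ HasZ k (PS (Dc g))) {ρ ρ' : ℝ → ℝ}
    (hρ : ∀ x ∈ Ioo (0 : ℝ) 2, ρ x ≠ 0 ∧ HasDerivAt ρ (ρ' x) x)
    (hF : ∀ x ∈ Ioo (0 : ℝ) 2, FF k x = ρ x * PS g (1 - x ^ 2 / 4))
    (hlow : ∃ s : Finset ℝ, s.card = k - 1 ∧ ∀ z ∈ s, z ∈ Ioo (0 : ℝ) 2 ∧ FF k z = 0) :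
    {x : ℝ | x ∈ Ioo (0 : ℝ) 2 ∧ FF k x = 0}.encard = ((k - 1 : ℕ) : ℕ∞) ∧
      ∀ x ∈ Ioo (0 : ℝ) 2, FF k x = 0 → ∃ d, d ≠ 0 ∧ HasDerivAt (FF k) d x := by
  classical
  have hab : ∀ z ∈ Ico (0 : ℝ) 1, |z| < 1 := fun z hz => by
    rw [abs_of_nonneg hz.1]; exact hz.2
  have hyin : ∀ x ∈ Ioo (0 : ℝ) 2, 1 - x ^ 2 / 4 ∈ Ioo (0 : ℝ) 1 := by
    intro x hx
    have h1 := hx.1
    have h2 := hx.2
    constructor <;> nlinarith
  have hinj : Set.InjOn (fun x : ℝ => 1 - x ^ 2 / 4) (Ioo (0 : ℝ) 2) := by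
    intro a ha b hb hab'
    have h1 : a ^ 2 = b ^ 2 := by
      have : 1 - a ^ 2 / 4 = 1 - b ^ 2 / 4 := hab'
      linarith
    exact (pow_left_inj₀ ha.1.le hb.1.le two_ne_zero).1 h1
  have hzero : ∀ x ∈ Ioo (0 : ℝ) 2, FF k x = 0 → PS g (1 - x ^ 2 / 4) = 0 := by
    intro x hx h
    rw [hF x hx] at h
    exact (mul_eq_zero.1 h).resolve_left (hρ x hx).1
  have hPS0 : PS g 0 = 0 := by
    unfold PS
    rw [tsum_eq_single 0]
    · rw [hg0, zero_mul]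
    · intro l hl
      rw [zero_pow hl, mul_zero]
  -- Rolle
  have hrolle : ∀ s : Finset ℝ, (∀ z ∈ s, z ∈ Ioo (0 : ℝ) 2 ∧ FF k z = 0) →
      ∃ t : Finset ℝ, t.card = s.card ∧ (∀ z ∈ t, z ∈ Ioo (0 : ℝ) 1 ∧ PS (Dc g) z = 0) ∧
        ∀ z ∈ s, 1 - z ^ 2 / 4 ∉ t := by
    intro s hs
    set s' := s.image (fun x : ℝ => 1 - x ^ 2 / 4) with hs'
    have hc' : s'.card = s.card := Finset.card_image_of_injOn (fun a ha b hb h =>
      hinj (hs a ha).1 (hs b hb).1 h)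
    have h0 : (0 : ℝ) ∉ s' := by
      intro h
      obtain ⟨z, hz, hz'⟩ := Finset.mem_image.1 h
      have := (hyin z (hs z hz).1).1
      have hz'' : 1 - z ^ 2 / 4 = 0 := hz'
      linarith
    have hcard : (insert (0 : ℝ) s').card = s.card + 1 := by
      rw [Finset.card_insert_of_notMem h0, hc']
    obtain ⟨t, ht1, ht2, ht3⟩ := rolleN (PS g) (PS (Dc g))
      (fun z hz => hasDerivAt_PS hg (hab z hz)) s.card (insert (0 : ℝ) s') hcard (by
        intro z hz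
        rcases Finset.mem_insert.1 hz with rfl | hz
        · exact ⟨⟨le_rfl, one_pos⟩, hPS0⟩
        · obtain ⟨w, hw, rfl⟩ := Finset.mem_image.1 hz
          exact ⟨Ioo_subset_Ico_self (hyin w (hs w hw).1), hzero w (hs w hw).1 (hs w hw).2⟩)
    refine ⟨t, ht1, ht2, fun z hz hzt => ?_⟩
    exact (Finset.disjoint_left.1 ht3 hzt) (Finset.mem_insert_of_mem (Finset.mem_image_of_mem _ hz))
  have hupper : ∀ s : Finset ℝ, (∀ z ∈ s, z ∈ Ioo (0 : ℝ) 2 ∧ FF k z = 0) → s.card < k := by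
    intro s hs
    by_contra hcon
    obtain ⟨t, ht1, ht2, _⟩ := hrolle s hs
    exact hn (HasZ.mono (by omega) ⟨t, ht1, ht2⟩)
  obtain ⟨s, hs1, hs2⟩ := hlow
  have hall : ∀ x, x ∈ Ioo (0 : ℝ) 2 → FF k x = 0 → x ∈ s := by
    intro x hx hx0
    by_contra hxs
    have := hupper (insert x s) (by
      intro z hz
      rcases Finset.mem_insert.1 hz with rfl | hz
      · exact ⟨hx, hx0⟩
      · exact hs2 z hz)
    rw [Finset.card_insert_of_notMem hxs] at this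
    omega
  refine ⟨?_, ?_⟩
  · have he : {x : ℝ | x ∈ Ioo (0 : ℝ) 2 ∧ FF k x = 0} = (s : Set ℝ) := by
      ext x
      constructor
      · rintro ⟨h1, h2⟩; exact hall x h1 h2
      · intro h; exact hs2 x h
    rw [he, Set.encard_coe_eq_coe_finsetCard, hs1]
  · intro x hx hx0
    have hy := hyin x hx
    have hz0 := hzero x hx hx0
    have hne : PS (Dc g) (1 - x ^ 2 / 4) ≠ 0 := by
      intro hcon
      obtain ⟨t, ht1, ht2, ht3⟩ := hrolle s hs2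
      have hnot := ht3 x (hall x hx hx0)
      apply hn
      refine ⟨insert (1 - x ^ 2 / 4) t, ?_, ?_⟩
      · rw [Finset.card_insert_of_notMem hnot, ht1, hs1]; omega
      · intro z hz
        rcases Finset.mem_insert.1 hz with rfl | hz
        · exact ⟨hy, hcon⟩
        · exact ht2 z hz
    have hd1 := hasDerivAt_PS hg (hab _ (Ioo_subset_Ico_self hy))
    have hd2 : HasDerivAt (fun x : ℝ => 1 - x ^ 2 / 4) (-(x / 2)) x := by
      have := ((hasDerivAt_const x (1 : ℝ)).sub ((hasDerivAt_pow 2 x).div_const 4))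
      refine this.congr_deriv ?_
      simp only [Nat.cast_ofNat, Nat.add_one_sub_one, pow_one]
      ring
    have hd3 := hd1.comp x hd2
    have hd4 := (hρ x hx).2.mul hd3
    refine ⟨ρ' x * (PS g ∘ fun x => 1 - x ^ 2 / 4) x + ρ x * (PS (Dc g) (1 - x ^ 2 / 4) * -(x / 2)),
      ?_, ?_⟩
    · have e : (PS g ∘ fun x : ℝ => 1 - x ^ 2 / 4) x = 0 := hz0
      rw [e, mul_zero, zero_add]
      apply mul_ne_zero (hρ x hx).1
      apply mul_ne_zero hne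
      have := hx.1
      intro h; linarith
    · refine hd4.congr_of_eventuallyEq ?_
      filter_upwards [isOpen_Ioo.mem_nhds hx] with z hz
      exact hF z hz

lemma no_zeros_TT {u v : ℕ → ℝ} {m : ℕ} (hu : ∀ i, 0 ≤ u i) (hv : ∀ j, 0 ≤ v j)
    (hu' : ∃ i ≤ m, 0 < u i) (hv' : ∃ j ≤ m, 0 < v j) : ¬ HasZ (1 + 2 * m) (PS (TT u v m)) := by
  intro h
  exact no_zero_of_pos ((Gr_TT u v m).lc_iter m) (TT_iter_pos hu hv hu' hv')
    (HasZ.lc_iter (Gr_TT u v m) m h)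

lemma no_zeros_Dc {u v : ℕ → ℝ} {m : ℕ} (hm : 1 ≤ m) (hu : ∀ i, 0 ≤ u i) (hv : ∀ j, 0 ≤ v j)
    (hu' : ∃ i ≤ m, 0 < u i) (hv' : ∃ j ≤ m, 0 < v j) : ¬ HasZ (2 * m) (PS (Dc (TT u v m))) := by
  intro h
  obtain ⟨p, rfl⟩ : ∃ p, m = p + 1 := ⟨m - 1, by omega⟩
  have hG := Gr_TT u v (p + 1)
  have hab : ∀ z ∈ Ico (0 : ℝ) 1, |z| < 1 := fun z hz => by
    rw [abs_of_nonneg hz.1]; exact hz.2
  have h2 : HasZ (1 + 2 * p + 1) (PS (Mc (Dc (TT u v (p + 1))))) := by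
    obtain ⟨s, hs, hz⟩ := h
    refine ⟨s, by omega, fun z hz' => ⟨(hz z hz').1, ?_⟩⟩
    rw [PS_mc hG.dc (hab z (Ioo_subset_Ico_self (hz z hz').1)), (hz z hz').2, mul_zero]
  have h3 : HasZ (1 + 2 * p) (PS (Lc (TT u v (p + 1)))) := by
    rw [Lc_eq]
    exact HasZ.deriv (fun z hz => hasDerivAt_PS hG.dc.mc (hab z hz)) h2
  have h4 := HasZ.lc_iter hG.lc p h3
  rw [← Function.iterate_succ_apply] at h4
  exact no_zero_of_pos (hG.lc_iter (p + 1)) (TT_iter_pos hu hv hu' hv') h4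

lemma TT_zero {u v : ℕ → ℝ} {m : ℕ} (hv0 : v 0 = 0) : TT u v m 0 = 0 := by
  unfold TT
  refine Finset.sum_eq_zero (fun a _ => ?_)
  obtain ⟨i, j⟩ := a
  show ((-1) ^ i * u i * ((-1) ^ j * v j)) * bb (i : ℤ) (j : ℤ) 0 = 0
  rcases Nat.eq_zero_or_pos j with h | h
  · subst h; rw [hv0]; ring
  · have : bb (i : ℤ) (j : ℤ) 0 = 0 := by
      unfold bb
      have e : ((0 : ℕ) : ℝ) - ((i : ℤ) : ℝ) - ((j : ℤ) : ℝ) + 1 = -((i + j - 1 : ℕ) : ℝ) := by
        rw [Nat.cast_sub (by omega)]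
        push_cast; ring
      rw [e, Real.Gamma_neg_nat_eq_zero]
      simp
    rw [this, mul_zero]

lemma half_pow (x : ℝ) : 1 - (x / 2) ^ 2 = 1 - x ^ 2 / 4 := by ring

theorem main_even (m : ℕ) (hm : 1 ≤ m) :
    {x : ℝ | x ∈ Ioo (0 : ℝ) 2 ∧ FF (2 * m) x = 0}.encard = ((2 * m - 1 : ℕ) : ℕ∞) ∧
      ∀ x ∈ Ioo (0 : ℝ) 2, FF (2 * m) x = 0 → ∃ d, d ≠ 0 ∧ HasDerivAt (FF (2 * m)) d x := by
  have hu : ∀ i, 0 ≤ (PA m).coeff i := (coeff_nonneg_all m).1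
  have hv : ∀ j, 0 ≤ (Polynomial.X * PB m).coeff j := coeff_nonneg_XB m
  have hu' : ∃ i ≤ m, 0 < (PA m).coeff i := ⟨0, by omega, by rw [(const_coeffs m).1]; norm_num⟩
  have hm' : (0 : ℝ) < m := by exact_mod_cast hm
  have hv' : ∃ j ≤ m, 0 < (Polynomial.X * PB m).coeff j := by
    refine ⟨1, hm, ?_⟩
    rw [show (1 : ℕ) = 0 + 1 by rfl, Polynomial.coeff_X_mul, (const_coeffs m).2]
    positivity
  have hF : ∀ x ∈ Ioo (0 : ℝ) 2, FF (2 * m) x = -(x / 2) *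
      PS (TT (PA m).coeff (Polynomial.X * PB m).coeff m) (1 - x ^ 2 / 4) := by
    intro x hx
    have := FF_even (X := x / 2) (by linarith [hx.1]) (by linarith [hx.2]) m
    rw [show 2 * (x / 2) = x by ring, half_pow] at this
    exact this
  refine final_of (k := 2 * m) (by omega) (Gr_TT _ _ m) (TT_zero (by simp))
    (no_zeros_Dc hm hu hv hu' hv') (ρ := fun x => -(x / 2)) (ρ' := fun _ => -(1 / 2)) ?_ hF ?_
  · intro x hx
    refine ⟨by intro h; linarith [hx.1], ?_⟩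
    exact ((hasDerivAt_id x).div_const 2).neg
  · apply lower_count (by omega)
    intro _
    set x1 := 1 + Real.cos (((2 * m - 1 : ℕ) : ℝ) * (Real.pi / (2 * m : ℕ))) with hx1
    have hL : 0 < (∑ i ∈ Finset.range (m + 1), (-1) ^ i * (PA m).coeff i) *
        (∑ j ∈ Finset.range (m + 1), (-1) ^ j * (Polynomial.X * PB m).coeff j) := by
      have e1 := eval_sum (degrees m).1 1
      have e2 := eval_sum (degrees m).2.2 1
      simp only [one_pow, mul_one] at e1 e2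
      rw [← e1, ← e2, Polynomial.eval_mul, Polynomial.eval_X, (eval_neg_one m).1,
        (eval_neg_one m).2]
      have hE : ((-1 : ℝ) ^ m) * (-1) ^ m = 1 := by
        rw [← pow_add, ← two_mul, pow_mul]; norm_num
      have : (-1 : ℝ) ^ m * (-1 * -((-1) ^ m * (2 * (m : ℝ)))) = 2 * m := by
        linear_combination (2 * (m : ℝ)) * hE
      rw [this]; positivity
    have hx1pos : 0 < x1 := by
      have h2m : (0 : ℝ) < ((2 * m : ℕ) : ℝ) := by exact_mod_cast (by omega : 0 < 2 * m)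
      have hlt : ((2 * m - 1 : ℕ) : ℝ) * (Real.pi / (2 * m : ℕ)) < Real.pi := by
        rw [← mul_div_assoc, div_lt_iff₀ h2m, mul_comm]
        apply mul_lt_mul_of_pos_left _ Real.pi_pos
        exact_mod_cast (by omega : 2 * m - 1 < 2 * m)
      have h3 : Real.cos Real.pi < Real.cos (((2 * m - 1 : ℕ) : ℝ) * (Real.pi / (2 * m : ℕ))) :=
        Real.cos_lt_cos_of_nonneg_of_le_pi (by have := Real.pi_pos; positivity) le_rfl hlt
      rw [Real.cos_pi] at h3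
      rw [hx1]; linarith
    obtain ⟨y, hy1, hy2, hy3, hy4⟩ := PS_TT_pos hL (y0 := 1 - x1 ^ 2 / 4)
      (by have : 0 < x1 ^ 2 := by positivity
          linarith)
    set p := 2 * √(1 - y) with hp
    have hs0 : 0 < √(1 - y) := Real.sqrt_pos.2 (by linarith)
    have hs2 : √(1 - y) ^ 2 = 1 - y := Real.sq_sqrt (by linarith)
    have hp0 : 0 < p := by positivity
    have hp2 : p ^ 2 = 4 * (1 - y) := by rw [hp, mul_pow, hs2]; ring
    have hplt : p < x1 := by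
      have : p ^ 2 < x1 ^ 2 := by rw [hp2]; linarith
      exact (pow_lt_pow_iff_left₀ hp0.le hx1pos.le two_ne_zero).1 this
    refine ⟨p, hp0.le, hplt, ?_⟩
    have hx12 : x1 ≤ 2 := by
      rw [hx1]
      have := Real.cos_le_one (((2 * m - 1 : ℕ) : ℝ) * (Real.pi / (2 * m : ℕ)))
      linarith
    rw [hF p ⟨hp0, by linarith⟩]
    have e : 1 - p ^ 2 / 4 = y := by rw [hp2]; ring
    rw [e]
    have hodd : Odd (2 * m - 1) := ⟨m - 1, by omega⟩
    rw [hodd.neg_one_pow]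
    have := mul_pos hp0 hy4
    linarith

theorem main_odd (m : ℕ) :
    {x : ℝ | x ∈ Ioo (0 : ℝ) 2 ∧ FF (2 * m + 1) x = 0}.encard = ((2 * m + 1 - 1 : ℕ) : ℕ∞) ∧
      ∀ x ∈ Ioo (0 : ℝ) 2, FF (2 * m + 1) x = 0 → ∃ d, d ≠ 0 ∧ HasDerivAt (FF (2 * m + 1)) d x := by
  have hDc : Dc (CC m) = TT (PC m).coeff (fun j => ((j : ℝ) + 1 / 2) * (PE m).coeff j) m := by
    funext l
    unfold CC TT
    show ((l : ℝ) + 1) * _ = _
    rw [Finset.mul_sum]
    refine Finset.sum_congr rfl (fun a _ => ?_)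
    have h := congrFun (Dc_cc (a.1 : ℤ) (a.2 : ℤ)) l
    have h' : ((l : ℝ) + 1) * cc (a.1 : ℤ) (a.2 : ℤ) (l + 1) =
      (((a.2 : ℤ) : ℝ) + 1 / 2) * bb (a.1 : ℤ) (a.2 : ℤ) l := h
    push_cast at h' ⊢
    linear_combination ((-1) ^ a.1 * (PC m).coeff a.1 * ((-1) ^ a.2 * (PE m).coeff a.2)) * h'
  have hGr : Gr (CC m) := by
    unfold CC
    exact Gr.sum _ _ (fun a _ => (Gr_cc a.1 a.2).const_mul _)
  have hC0 : CC m 0 = 0 := by
    unfold CC
    refine Finset.sum_eq_zero (fun a _ => ?_)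
    show _ * (0 : ℝ) = 0
    rw [mul_zero]
  have hF : ∀ x ∈ Ioo (0 : ℝ) 2, FF (2 * m + 1) x = 1 * PS (CC m) (1 - x ^ 2 / 4) := by
    intro x hx
    have := FF_odd (X := x / 2) (by linarith [hx.1]) (by linarith [hx.2]) m
    rw [show 2 * (x / 2) = x by ring, half_pow] at this
    rw [one_mul]
    exact this
  refine final_of (k := 2 * m + 1) (by omega) hGr hC0 ?_ (ρ := fun _ => 1) (ρ' := fun _ => 0) ?_ hF ?_
  · rw [hDc, show 2 * m + 1 = 1 + 2 * m by ring]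
    refine no_zeros_TT (coeff_nonneg_C m) (fun j => ?_) ?_ ?_
    · exact mul_nonneg (by positivity) (coeff_nonneg_E m j)
    · exact ⟨0, by omega, by rw [const_C m]; norm_num⟩
    · refine ⟨0, by omega, ?_⟩
      show 0 < (((0 : ℕ) : ℝ) + 1 / 2) * (PE m).coeff 0
      rw [const_E m]
      positivity
  · intro x _
    exact ⟨one_ne_zero, hasDerivAt_const x 1⟩
  · apply lower_count (by omega)
    intro h2
    refine ⟨0, le_rfl, ?_, ?_⟩
    · have h2m : (0 : ℝ) < ((2 * m + 1 : ℕ) : ℝ) := by exact_mod_cast (by omega : 0 < 2 * m + 1)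
      have hlt : ((2 * m + 1 - 1 : ℕ) : ℝ) * (Real.pi / (2 * m + 1 : ℕ)) < Real.pi := by
        rw [← mul_div_assoc, div_lt_iff₀ h2m, mul_comm]
        apply mul_lt_mul_of_pos_left _ Real.pi_pos
        exact_mod_cast (by omega : 2 * m + 1 - 1 < 2 * m + 1)
      have h3 : Real.cos Real.pi < Real.cos (((2 * m + 1 - 1 : ℕ) : ℝ) * (Real.pi / (2 * m + 1 : ℕ))) :=
        Real.cos_lt_cos_of_nonneg_of_le_pi (by have := Real.pi_pos; positivity) le_rfl hlt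
      rw [Real.cos_pi] at h3
      linarith
    · have hev : Even (2 * m + 1 - 1) := ⟨m, by omega⟩
      rw [hev.neg_one_pow, one_mul, FF_eq_GG _ le_rfl (by norm_num)]
      exact GG_zero ⟨m, rfl⟩

theorem main (k : ℕ) (hk : 1 ≤ k) :
    {x : ℝ | x ∈ Ioo (0 : ℝ) 2 ∧ FF k x = 0}.encard = ((k - 1 : ℕ) : ℕ∞) ∧
      ∀ x ∈ Ioo (0 : ℝ) 2, FF k x = 0 → ∃ d, d ≠ 0 ∧ HasDerivAt (FF k) d x := by
  rcases Nat.even_or_odd' k with ⟨m, rfl | rfl⟩
  · exact main_even m (by omega)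
  · exact main_odd m

end Pool.Agent.Q80.ZK
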